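import Pool.Agent.Helper73.RS.Defs

/-! Project RS: elementary facts on bounded functions, means and large sets. -/

namespace Pool.Agent.Helper73.RS

variable {ι κ : Type*}

theorem Bd.const (c : ℝ) : Bd (fun _ : ι => c) := ⟨|c|, fun _ => le_rfl⟩

theorem Bd.add {f g : ι → ℝ} (hf : Bd f) (hg : Bd g) : Bd (fun i => f i + g i) := by
  obtain ⟨C, hC⟩ := hf
  obtain ⟨D, hD⟩ := hg
  exact ⟨C + D, fun i => (abs_add_le _ _).trans (add_le_add (hC i) (hD i))⟩

theorem Bd.neg {f : ι → ℝ} (hf : Bd f) : Bd (fun i => - f i) := by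
  obtain ⟨C, hC⟩ := hf
  exact ⟨C, fun i => by rw [abs_neg]; exact hC i⟩

theorem Bd.sub {f g : ι → ℝ} (hf : Bd f) (hg : Bd g) : Bd (fun i => f i - g i) := by
  simpa only [sub_eq_add_neg] using hf.add hg.neg

theorem Bd.mul {f g : ι → ℝ} (hf : Bd f) (hg : Bd g) : Bd (fun i => f i * g i) := by
  obtain ⟨C, hC⟩ := hf
  obtain ⟨D, hD⟩ := hg
  refine ⟨C * D, fun i => ?_⟩
  rw [abs_mul]
  exact mul_le_mul (hC i) (hD i) (abs_nonneg _) ((abs_nonneg _).trans (hC i))

theorem Bd.smul (c : ℝ) {f : ι → ℝ} (hf : Bd f) : Bd (fun i => c * f i) := (Bd.const c).mul hf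

theorem Bd.comp {f : ι → ℝ} (hf : Bd f) (g : κ → ι) : Bd (fun k => f (g k)) := by
  obtain ⟨C, hC⟩ := hf
  exact ⟨C, fun k => hC (g k)⟩

theorem Bd.sum {α : Type*} (s : Finset α) {f : α → ι → ℝ} (hf : ∀ a ∈ s, Bd (f a)) :
    Bd (fun i => ∑ a ∈ s, f a i) := by
  classical
  induction s using Finset.induction_on with
  | empty => simpa using Bd.const (ι := ι) 0
  | insert a s ha ih =>
    have h1 := ih (fun b hb => hf b (Finset.mem_insert_of_mem hb))
    have h2 := (hf a (Finset.mem_insert_self a s)).add h1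
    have h3 : (fun i => ∑ b ∈ insert a s, f b i) = fun i => f a i + ∑ b ∈ s, f b i := by
      funext i
      exact Finset.sum_insert ha
    rw [h3]
    exact h2

theorem Bd.of_nonneg_le {f : ι → ℝ} {C : ℝ} (h0 : ∀ i, 0 ≤ f i) (h1 : ∀ i, f i ≤ C) : Bd f :=
  ⟨C, fun i => by rw [abs_of_nonneg (h0 i)]; exact h1 i⟩

theorem Bd.of_le_le {f : ι → ℝ} {A B : ℝ} (h0 : ∀ i, A ≤ f i) (h1 : ∀ i, f i ≤ B) : Bd f := by
  refine ⟨max |A| |B|, fun i => ?_⟩
  rw [abs_le]
  constructor
  · have h2 := neg_abs_le A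
    have h3 := le_max_left |A| |B|
    have h4 := h0 i
    linarith
  · have h2 := le_abs_self B
    have h3 := le_max_right |A| |B|
    have h4 := h1 i
    linarith

theorem ind_nonneg (U : Set ι) (i : ι) : 0 ≤ ind U i :=
  Set.indicator_nonneg (fun _ _ => zero_le_one) i

theorem ind_le_one (U : Set ι) (i : ι) : ind U i ≤ 1 := by
  unfold ind
  by_cases h : i ∈ U
  · rw [Set.indicator_of_mem h]
  · rw [Set.indicator_of_notMem h]
    exact zero_le_one

theorem ind_of_mem {U : Set ι} {i : ι} (h : i ∈ U) : ind U i = 1 := Set.indicator_of_mem h _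

theorem ind_of_notMem {U : Set ι} {i : ι} (h : i ∉ U) : ind U i = 0 :=
  Set.indicator_of_notMem h _

theorem Bd.ind (U : Set ι) : Bd (ind U) := Bd.of_nonneg_le (ind_nonneg U) (ind_le_one U)

theorem ind_comp (U : Set ι) (g : κ → ι) : (fun k => RS.ind U (g k)) = RS.ind {k | g k ∈ U} := by
  funext k
  by_cases h : g k ∈ U
  · rw [ind_of_mem h, ind_of_mem (show k ∈ {k | g k ∈ U} from h)]
  · rw [ind_of_notMem h, ind_of_notMem (show k ∉ {k | g k ∈ U} from h)]

theorem ind_mono {U V : Set ι} (h : U ⊆ V) (i : ι) : RS.ind U i ≤ RS.ind V i := by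
  by_cases hi : i ∈ U
  · rw [ind_of_mem hi, ind_of_mem (h hi)]
  · rw [ind_of_notMem hi]
    exact ind_nonneg V i

theorem ind_union_le (U V : Set ι) (i : ι) : RS.ind (U ∪ V) i ≤ RS.ind U i + RS.ind V i := by
  by_cases hi : i ∈ U
  · rw [ind_of_mem (show i ∈ U ∪ V from Or.inl hi), ind_of_mem hi]
    linarith [ind_nonneg V i]
  · by_cases hj : i ∈ V
    · rw [ind_of_mem (show i ∈ U ∪ V from Or.inr hj), ind_of_mem hj]
      linarith [ind_nonneg U i]
    · rw [ind_of_notMem (show i ∉ U ∪ V from fun h => h.elim hi hj)]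
      linarith [ind_nonneg U i, ind_nonneg V i]

namespace IsMean

variable {m : W}

theorem const (hm : IsMean m) (c : ℝ) : m (fun _ => c) = c := by
  have h := hm.smul c (fun _ => 1) (Bd.const 1)
  rw [hm.one] at h
  simpa using h

theorem neg (hm : IsMean m) {f : ℕ → ℝ} (hf : Bd f) : m (fun x => - f x) = - m f := by
  have h := hm.smul (-1) f hf
  simpa using h

theorem sub (hm : IsMean m) {f g : ℕ → ℝ} (hf : Bd f) (hg : Bd g) :
    m (fun x => f x - g x) = m f - m g := by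
  have h := hm.add f (fun x => - g x) hf hg.neg
  rw [hm.neg hg] at h
  simpa [sub_eq_add_neg] using h

theorem sum (hm : IsMean m) {α : Type*} (s : Finset α) {f : α → ℕ → ℝ}
    (hf : ∀ a ∈ s, Bd (f a)) : m (fun x => ∑ a ∈ s, f a x) = ∑ a ∈ s, m (f a) := by
  classical
  induction s using Finset.induction_on with
  | empty => simpa using hm.const 0
  | insert a s ha ih =>
    have h1 := ih (fun b hb => hf b (Finset.mem_insert_of_mem hb))
    have h2 := hm.add (f a) (fun x => ∑ b ∈ s, f b x) (hf a (Finset.mem_insert_self a s))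
      (Bd.sum s (fun b hb => hf b (Finset.mem_insert_of_mem hb)))
    have h3 : (fun x => ∑ b ∈ insert a s, f b x) = fun x => f a x + ∑ b ∈ s, f b x := by
      funext x
      exact Finset.sum_insert ha
    rw [h3, h2, h1, Finset.sum_insert ha]

theorem mono (hm : IsMean m) {f g : ℕ → ℝ} (hf : Bd f) (hg : Bd g) (h : ∀ x, f x ≤ g x) :
    m f ≤ m g := by
  have h1 := hm.nonneg (fun x => g x - f x) (hg.sub hf) (fun x => sub_nonneg.2 (h x))
  rw [hm.sub hg hf] at h1
  linarith

theorem le_of_le (hm : IsMean m) {f : ℕ → ℝ} {C : ℝ} (hf : Bd f) (h : ∀ x, f x ≤ C) :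
    m f ≤ C := by
  have h1 := hm.mono hf (Bd.const C) h
  rwa [hm.const] at h1

theorem ge_of_ge (hm : IsMean m) {f : ℕ → ℝ} {C : ℝ} (hf : Bd f) (h : ∀ x, C ≤ f x) :
    C ≤ m f := by
  have h1 := hm.mono (Bd.const C) hf h
  rwa [hm.const] at h1

theorem abs_le (hm : IsMean m) {f : ℕ → ℝ} {C : ℝ} (h : ∀ x, |f x| ≤ C) : |m f| ≤ C := by
  have hf : Bd f := ⟨C, h⟩
  exact _root_.abs_le.2 ⟨hm.ge_of_ge hf fun x => (_root_.abs_le.1 (h x)).1,
    hm.le_of_le hf fun x => (_root_.abs_le.1 (h x)).2⟩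

/-- Boundedness of a parametrised mean. -/
theorem bd_int (hm : IsMean m) {F : ι → ℕ → ℝ} (hF : Bd (fun q : ι × ℕ => F q.1 q.2)) :
    Bd (fun i => m (F i)) := by
  obtain ⟨C, hC⟩ := hF
  exact ⟨C, fun i => hm.abs_le fun x => hC (i, x)⟩

theorem ind_univ (hm : IsMean m) : m (ind Set.univ) = 1 := by
  have h : (ind Set.univ : ℕ → ℝ) = fun _ => 1 := by
    funext x
    exact ind_of_mem (Set.mem_univ x)
  rw [h, hm.one]

theorem ind_nonneg (hm : IsMean m) (U : Set ℕ) : 0 ≤ m (ind U) :=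
  hm.nonneg _ (Bd.ind U) (RS.ind_nonneg U)

theorem ind_le_one (hm : IsMean m) (U : Set ℕ) : m (ind U) ≤ 1 :=
  hm.le_of_le (Bd.ind U) (RS.ind_le_one U)

theorem ind_mono (hm : IsMean m) {U V : Set ℕ} (h : U ⊆ V) : m (ind U) ≤ m (ind V) :=
  hm.mono (Bd.ind U) (Bd.ind V) (RS.ind_mono h)

theorem ind_union (hm : IsMean m) (U V : Set ℕ) :
    m (ind (U ∪ V)) ≤ m (ind U) + m (ind V) := by
  have h := hm.mono (Bd.ind (U ∪ V)) ((Bd.ind U).add (Bd.ind V)) (ind_union_le U V)
  rwa [hm.add _ _ (Bd.ind U) (Bd.ind V)] at h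

theorem ind_compl (hm : IsMean m) (U : Set ℕ) : m (ind Uᶜ) = 1 - m (ind U) := by
  have h : (ind Uᶜ : ℕ → ℝ) = fun x => 1 - ind U x := by
    funext x
    by_cases hx : x ∈ U
    · rw [ind_of_mem hx, ind_of_notMem (fun h : x ∈ Uᶜ => h hx)]
      ring
    · rw [ind_of_notMem hx, ind_of_mem (show x ∈ Uᶜ from hx)]
      ring
  rw [h, hm.sub (Bd.const 1) (Bd.ind U), hm.const]

/-- Markov: a bounded nonnegative function with positive mean is positive on a set of
positive mean. -/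
theorem pos_of_pos (hm : IsMean m) {f : ℕ → ℝ} (hf : Bd f) (h : 0 < m f) :
    0 < m (ind {x | 0 < f x}) := by
  obtain ⟨C, hC⟩ := hf
  have hC0 : 0 ≤ C := (abs_nonneg _).trans (hC 0)
  by_contra hcon
  have h0 : m (ind {x | 0 < f x}) = 0 := le_antisymm (not_lt.1 hcon) (hm.ind_nonneg _)
  have h1 : m f ≤ m (fun x => C * ind {x | 0 < f x} x) := by
    refine hm.mono ⟨C, hC⟩ ((Bd.ind _).smul C) fun x => ?_
    by_cases hx : 0 < f x
    · rw [ind_of_mem (show x ∈ {x | 0 < f x} from hx), mul_one]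
      exact (le_abs_self _).trans (hC x)
    · rw [ind_of_notMem (show x ∉ {x | 0 < f x} from hx), mul_zero]
      exact not_lt.1 hx
  rw [hm.smul C _ (Bd.ind _), h0, mul_zero] at h1
  linarith

end IsMean

/-- Product of means is a mean. -/
theorem IsMean.mul {m n : W} (hm : IsMean m) (hn : IsMean n) : IsMean (m * n) where
  add f g hf hg := by
    have h1 : (m * n) (fun x => f x + g x) =
        m (fun a => n (fun b => f (a + b)) + n (fun b => g (a + b))) := by
      rw [mul_def]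
      congr 1
      funext a
      exact hn.add _ _ (hf.comp fun b => a + b) (hg.comp fun b => a + b)
    rw [h1, hm.add]
    · rfl
    · exact hn.bd_int (hf.comp fun q : ℕ × ℕ => q.1 + q.2)
    · exact hn.bd_int (hg.comp fun q : ℕ × ℕ => q.1 + q.2)
  smul c f hf := by
    have h1 : (m * n) (fun x => c * f x) = m (fun a => c * n (fun b => f (a + b))) := by
      rw [mul_def]
      congr 1
      funext a
      exact hn.smul c _ (hf.comp fun b => a + b)
    rw [h1, hm.smul]
    · rfl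
    · exact hn.bd_int (hf.comp fun q : ℕ × ℕ => q.1 + q.2)
  nonneg f hf h0 := by
    rw [mul_def]
    refine hm.nonneg _ (hn.bd_int (hf.comp fun q : ℕ × ℕ => q.1 + q.2)) fun a => ?_
    exact hn.nonneg _ (hf.comp fun b => a + b) fun b => h0 _
  one := by
    rw [mul_def]
    simp only [hn.one, hm.one]
  junk f hf := by
    rw [mul_def]
    have h1 : ∀ a : ℕ, n (fun b => f (a + b)) = 0 := by
      intro a
      refine hn.junk _ fun hb => hf ?_
      obtain ⟨C, hC⟩ := hb
      refine ⟨max C (∑ i ∈ Finset.range a, |f i|), fun x => ?_⟩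
      rcases lt_or_ge x a with hx | hx
      · refine le_trans ?_ (le_max_right _ _)
        exact Finset.single_le_sum (f := fun i => |f i|) (fun i _ => abs_nonneg _)
          (Finset.mem_range.2 hx)
      · refine le_trans ?_ (le_max_left _ _)
        obtain ⟨d, rfl⟩ := Nat.exists_eq_add_of_le hx
        exact hC d
    simp only [h1]
    exact hm.const 0

/-- Large sets: monotonicity. -/
theorem Large.mono {U V : Set ℕ} (h : Large U) (hUV : U ⊆ V) : Large V := by
  obtain ⟨μ, h1, h2, h3⟩ := h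
  exact ⟨μ, h1, h2, h3.trans_le (h1.ind_mono hUV)⟩

theorem Large.union {U V : Set ℕ} (h : Large (U ∪ V)) : Large U ∨ Large V := by
  obtain ⟨μ, h1, h2, h3⟩ := h
  by_contra hcon
  rw [not_or] at hcon
  have hU : μ (ind U) = 0 := by
    by_contra hne
    exact hcon.1 ⟨μ, h1, h2, lt_of_le_of_ne (h1.ind_nonneg U) (Ne.symm hne)⟩
  have hV : μ (ind V) = 0 := by
    by_contra hne
    exact hcon.2 ⟨μ, h1, h2, lt_of_le_of_ne (h1.ind_nonneg V) (Ne.symm hne)⟩
  have h4 := h1.ind_union U V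
  rw [hU, hV] at h4
  linarith

theorem Rec.mono {U V : Set ℕ} (h : Rec U) (hUV : U ⊆ V) : Rec V := by
  intro B hB
  obtain ⟨u, hu, hB'⟩ := h B hB
  exact ⟨u, hUV hu, hB'⟩

theorem Inv.add {μ : W} (h : Inv μ) {f : ℕ → ℝ} (hf : Bd f) (a : ℕ) :
    μ (fun x => f (x + a)) = μ f := by
  induction a with
  | zero => rfl
  | succ a ih =>
    have h1 := h (fun x => f (x + a)) (hf.comp fun x => x + a)
    rw [ih] at h1
    rw [← h1]
    congr 1
    funext x
    congr 1
    ring

/-- Shifting a large set. -/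
theorem large_shift (U : Set ℕ) (a : ℕ) : Large {x | x + a ∈ U} ↔ Large U := by
  have key : ∀ μ : W, Inv μ → μ (ind {x | x + a ∈ U}) = μ (ind U) := by
    intro μ h
    rw [← ind_comp U (fun x => x + a)]
    exact h.add (Bd.ind U) a
  constructor
  · rintro ⟨μ, h1, h2, h3⟩
    exact ⟨μ, h1, h2, by rwa [key μ h2] at h3⟩
  · rintro ⟨μ, h1, h2, h3⟩
    exact ⟨μ, h1, h2, by rwa [key μ h2]⟩

/-- Finite sets are not large. -/
theorem Large.infinite {U : Set ℕ} (h : Large U) : U.Infinite := by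
  intro hfin
  obtain ⟨μ, h1, h2, h3⟩ := h
  have hs : ∀ a : ℕ, μ (ind {a}) = 0 := by
    intro a
    have h4 := h2.add (Bd.ind {a}) (a + 1)
    rw [ind_comp ({a} : Set ℕ) (fun x => x + (a + 1))] at h4
    have h5 : {x : ℕ | x + (a + 1) ∈ ({a} : Set ℕ)} = ∅ := by
      ext x
      simp only [Set.mem_ofPred_eq, Set.mem_singleton_iff, Set.mem_empty_iff_false, iff_false]
      omega
    rw [h5] at h4
    rw [← h4]
    have h6 : (ind (∅ : Set ℕ)) = fun _ => (0 : ℝ) := by
      funext x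
      exact ind_of_notMem (Set.notMem_empty x)
    rw [h6, h1.const]
  have hall : ∀ s : Finset ℕ, μ (ind (s : Set ℕ)) = 0 := by
    intro s
    induction s using Finset.induction_on with
    | empty =>
      have h6 : (ind ((∅ : Finset ℕ) : Set ℕ)) = fun _ => (0 : ℝ) := by
        funext x
        exact ind_of_notMem (by simp)
      rw [h6, h1.const]
    | insert a s ha ih =>
      have h7 : ((insert a s : Finset ℕ) : Set ℕ) = {a} ∪ (s : Set ℕ) := by
        simp
      have h8 := h1.ind_union {a} (s : Set ℕ)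
      rw [← h7, hs a, ih] at h8
      exact le_antisymm (by linarith) (h1.ind_nonneg _)
  have h9 := hall hfin.toFinset
  rw [hfin.coe_toFinset] at h9
  linarith

/-- A good mean vanishes on finite sets; monotonicity may be tested on positive integers. -/
theorem Good.fin {m : W} (hm : Good m) {U : Set ℕ} (hU : U.Finite) : m (ind U) = 0 :=
  hm.large U fun h => h.infinite hU

theorem Good.mono_pos {m : W} (hm : Good m) {f g : ℕ → ℝ} (hf : Bd f) (hg : Bd g)
    (h : ∀ x, 1 ≤ x → f x ≤ g x) : m f ≤ m g := by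
  have h0 : m (ind {0}) = 0 := hm.fin (Set.finite_singleton 0)
  have h1 : m f ≤ m (fun x => g x + (f 0 - g 0) * ind {0} x) := by
    refine hm.mean.mono hf (hg.add ((Bd.ind _).smul _)) fun x => ?_
    rcases Nat.eq_zero_or_pos x with hx | hx
    · subst hx
      rw [ind_of_mem (Set.mem_singleton 0)]
      linarith
    · rw [ind_of_notMem (by simp; omega), mul_zero, add_zero]
      exact h x hx
  rw [hm.mean.add _ _ hg ((Bd.ind _).smul _), hm.mean.smul _ _ (Bd.ind _), h0] at h1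
  linarith

theorem Good.congr_pos {m : W} (hm : Good m) {f g : ℕ → ℝ} (hf : Bd f) (hg : Bd g)
    (h : ∀ x, 1 ≤ x → f x = g x) : m f = m g :=
  le_antisymm (hm.mono_pos hf hg fun x hx => (h x hx).le)
    (hm.mono_pos hg hf fun x hx => (h x hx).ge)

open Filter Topology

open Classical in
/-- A functional which is a mean on bounded functions, extended by `0`. -/
noncomputable def ext (φ : (ℕ → ℝ) → ℝ) : W := fun f => if Bd f then φ f else 0

theorem ext_apply (φ : (ℕ → ℝ) → ℝ) {f : ℕ → ℝ} (hf : Bd f) : ext φ f = φ f := if_pos hf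

theorem isMean_ext {φ : (ℕ → ℝ) → ℝ}
    (hadd : ∀ f g : ℕ → ℝ, Bd f → Bd g → φ (fun x => f x + g x) = φ f + φ g)
    (hsmul : ∀ (c : ℝ) (f : ℕ → ℝ), Bd f → φ (fun x => c * f x) = c * φ f)
    (hpos : ∀ f : ℕ → ℝ, Bd f → (∀ x, 0 ≤ f x) → 0 ≤ φ f)
    (hone : φ (fun _ => 1) = 1) : IsMean (ext φ) where
  add f g hf hg := by
    rw [ext_apply φ hf, ext_apply φ hg, ext_apply φ (hf.add hg), hadd f g hf hg]
  smul c f hf := by
    rw [ext_apply φ hf, ext_apply φ (hf.smul c), hsmul c f hf]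
  nonneg f hf h := by
    rw [ext_apply φ hf]
    exact hpos f hf h
  one := by rw [ext_apply φ (Bd.const 1), hone]
  junk f hf := if_neg hf

theorem dil_apply (n : ℕ) (m : W) {f : ℕ → ℝ} (hf : Bd f) : dil n m f = m (fun x => f (n * x)) :=
  if_pos hf

theorem isMean_dil (n : ℕ) {m : W} (hm : IsMean m) : IsMean (dil n m) :=
  isMean_ext (φ := fun f => m (fun x => f (n * x)))
    (fun _ _ hf hg => hm.add _ _ (hf.comp fun x => n * x) (hg.comp fun x => n * x))
    (fun c _ hf => hm.smul c _ (hf.comp fun x => n * x))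
    (fun _ hf h => hm.nonneg _ (hf.comp fun x => n * x) fun _ => h _)
    hm.one

/-- Two means are equal when they agree on bounded functions. -/
theorem IsMean.ext' {m n : W} (hm : IsMean m) (hn : IsMean n)
    (h : ∀ f : ℕ → ℝ, Bd f → m f = n f) : m = n := by
  funext f
  by_cases hf : Bd f
  · exact h f hf
  · rw [hm.junk f hf, hn.junk f hf]

/-- Limit of a real sequence along an ultrafilter. -/
noncomputable def ulim (U : Ultrafilter ℕ) (f : ℕ → ℝ) : ℝ := limUnder (U : Filter ℕ) f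

theorem tendsto_ulim (U : Ultrafilter ℕ) {f : ℕ → ℝ} (hf : Bd f) :
    Tendsto f (U : Filter ℕ) (𝓝 (ulim U f)) := by
  obtain ⟨C, hC⟩ := hf
  have h1 : ((U.map f : Ultrafilter ℝ) : Filter ℝ) ≤ 𝓟 (Set.Icc (-C) C) := by
    rw [le_principal_iff]
    exact mem_map.2 (Filter.univ_mem' fun x => abs_le.1 (hC x))
  obtain ⟨y, _, hy⟩ := isCompact_Icc.ultrafilter_le_nhds (U.map f) h1
  exact tendsto_nhds_limUnder ⟨y, hy⟩

theorem ulim_eq (U : Ultrafilter ℕ) {f : ℕ → ℝ} {y : ℝ}
    (h : Tendsto f (U : Filter ℕ) (𝓝 y)) : ulim U f = y := h.limUnder_eq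

theorem ulim_add (U : Ultrafilter ℕ) {f g : ℕ → ℝ} (hf : Bd f) (hg : Bd g) :
    ulim U (fun x => f x + g x) = ulim U f + ulim U g :=
  ulim_eq U ((tendsto_ulim U hf).add (tendsto_ulim U hg))

theorem ulim_smul (U : Ultrafilter ℕ) (c : ℝ) {f : ℕ → ℝ} (hf : Bd f) :
    ulim U (fun x => c * f x) = c * ulim U f :=
  ulim_eq U ((tendsto_ulim U hf).const_mul c)

theorem ulim_nonneg (U : Ultrafilter ℕ) {f : ℕ → ℝ} (hf : Bd f) (h : ∀ x, 0 ≤ f x) :
    0 ≤ ulim U f :=
  ge_of_tendsto (tendsto_ulim U hf) (Filter.univ_mem' h)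

theorem ulim_const (U : Ultrafilter ℕ) (c : ℝ) : ulim U (fun _ => c) = c :=
  ulim_eq U tendsto_const_nhds

/-- The mean of an ultrafilter. -/
noncomputable def um (U : Ultrafilter ℕ) : W := ext (ulim U)

theorem isMean_um (U : Ultrafilter ℕ) : IsMean (um U) :=
  isMean_ext (fun _ _ hf hg => ulim_add U hf hg) (fun c _ hf => ulim_smul U c hf)
    (fun _ hf h => ulim_nonneg U hf h) (ulim_const U 1)

theorem um_ind_of_mem {U : Ultrafilter ℕ} {V : Set ℕ} (h : V ∈ U) : um U (ind V) = 1 := by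
  rw [um, ext_apply _ (Bd.ind V)]
  refine ulim_eq U ?_
  refine Tendsto.congr' ?_ tendsto_const_nhds
  filter_upwards [h] with x hx
  rw [ind_of_mem hx]

theorem um_ind_of_notMem {U : Ultrafilter ℕ} {V : Set ℕ} (h : V ∉ U) : um U (ind V) = 0 := by
  rw [um, ext_apply _ (Bd.ind V)]
  refine ulim_eq U ?_
  refine Tendsto.congr' ?_ tendsto_const_nhds
  have h1 : Vᶜ ∈ U := Ultrafilter.compl_mem_iff_notMem.2 h
  filter_upwards [h1] with x hx
  rw [ind_of_notMem hx]

end Pool.Agent.Helper73.RS
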