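import Pool.Agent.Helper73.RS.St

namespace Pool.Agent.Helper73.RS

open Filter Topology

/-- State of the recursion: `X` the points found so far, `S` the subset sums of the `a`'s. -/
structure CmbState (B₀ : Set ℕ) where
  X : Finset ℕ
  S : Finset ℕ
  B : Set ℕ
  last : ℕ
  large : Large B
  hX : ∀ x ∈ X, x ∈ B₀
  hB : ∀ x ∈ B, ∀ s ∈ S, x + s ∈ B₀

theorem holds_CMB : StCMB := by
  classical
  intro P B₀ T hP hB₀ hT
  have step : ∀ s : CmbState B₀, ∃ (b a : ℕ) (s' : CmbState B₀), s.last < b ∧ b < a ∧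
      s'.last = a ∧ s'.X = s.X ∪ s.S.image (fun σ => b + σ) ∧
      s'.S = s.S ∪ s.S.image (fun σ => a + σ) ∧ ∀ x ∈ s'.X, a ∈ T x := by
    intro s
    obtain ⟨b, hbB, hb⟩ := s.large.infinite.exists_gt s.last
    have hX' : ∀ x ∈ s.X ∪ s.S.image (fun σ => b + σ), x ∈ B₀ := by
      intro x hx
      rcases Finset.mem_union.1 hx with hx | hx
      · exact s.hX x hx
      · obtain ⟨σ, hσ, rfl⟩ := Finset.mem_image.1 hx
        exact s.hB b hbB σ hσ
    have hV : (⋂ x ∈ s.X ∪ s.S.image (fun σ => b + σ), T x) ∩ Set.Ioi b ∈ P := by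
      refine inter_mem ((biInter_finset_mem _).2 fun x hx => hT x (hX' x hx)) ?_
      by_contra hcon
      have h1 : (Set.Ioi b)ᶜ ∈ P := Ultrafilter.compl_mem_iff_notMem.2 hcon
      refine (hP _ h1).2 ?_
      rw [Set.compl_Ioi]
      exact Set.finite_Iic b
    obtain ⟨a, ⟨haT, hab⟩, hB'⟩ := (hP _ hV).1 s.B s.large
    refine ⟨b, a, ⟨s.X ∪ s.S.image (fun σ => b + σ), s.S ∪ s.S.image (fun σ => a + σ),
      {x | x ∈ s.B ∧ x + a ∈ s.B}, a, hB', hX', ?_⟩, hb, hab, rfl, rfl, rfl, ?_⟩
    · rintro x ⟨hx1, hx2⟩ σ hσ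
      rcases Finset.mem_union.1 hσ with hσ | hσ
      · exact s.hB x hx1 σ hσ
      · obtain ⟨τ, hτ, rfl⟩ := Finset.mem_image.1 hσ
        have := s.hB _ hx2 τ hτ
        rwa [add_assoc] at this
    · intro x hx
      exact Set.mem_iInter₂.1 haT x hx
  choose b a S hlast hba hlast' hX hS hT' using step
  let s : ℕ → CmbState B₀ := fun k => Nat.rec
    ⟨∅, {0}, B₀, 0, hB₀, fun x hx => absurd hx (Finset.notMem_empty x), fun x hx σ hσ => by
      rw [Finset.mem_singleton.1 hσ]
      exact hx⟩ (fun _ s => S s) k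
  have hs : ∀ k, s (k + 1) = S (s k) := fun k => rfl
  have hsum : ∀ (i : ℕ) (F : Finset ℕ), (∀ j ∈ F, j < i) → ∑ j ∈ F, a (s j) ∈ (s i).S := by
    intro i
    induction i with
    | zero =>
      intro F hF
      have : F = ∅ := Finset.eq_empty_of_forall_notMem fun j hj => absurd (hF j hj) (by omega)
      rw [this, Finset.sum_empty]
      exact Finset.mem_singleton_self 0
    | succ i ih =>
      intro F hF
      rw [hs, hS]
      by_cases hi : i ∈ F
      · refine Finset.mem_union_right _ (Finset.mem_image.2 ⟨∑ j ∈ F.erase i, a (s j), ?_, ?_⟩)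
        · refine ih _ fun j hj => ?_
          have h1 := Finset.mem_erase.1 hj
          have h2 := hF j h1.2
          have h3 := h1.1
          omega
        · exact Finset.add_sum_erase F (fun j => a (s j)) hi
      · refine Finset.mem_union_left _ (ih F fun j hj => ?_)
        have h2 := hF j hj
        have h3 : j ≠ i := fun h => hi (h ▸ hj)
        omega
  have hXmono : Monotone fun k => (s k).X := by
    refine monotone_nat_of_le_succ fun k => ?_
    show (s k).X ⊆ (s (k + 1)).X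
    rw [hs, hX]
    exact Finset.subset_union_left
  have hmem : ∀ (i : ℕ) (F : Finset ℕ), (∀ j ∈ F, j < i) →
      b (s i) + ∑ j ∈ F, a (s j) ∈ (s (i + 1)).X := by
    intro i F hF
    rw [hs, hX]
    exact Finset.mem_union_right _ (Finset.mem_image.2 ⟨_, hsum i F hF, rfl⟩)
  refine ⟨fun k => a (s k), fun k => b (s k), ?_, fun i => ⟨hba _, ?_⟩, fun i F hF => ?_,
    fun i k F hF hik => ?_⟩
  · exact hlast (s 0)
  · have h1 := hlast (s (i + 1))
    rwa [hs, hlast'] at h1
  · exact (s (i + 1)).hX _ (hmem i F hF)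
  · exact hT' (s k) _ (hs k ▸ hXmono (Nat.succ_le_succ hik) (hmem i F hF))

end Pool.Agent.Helper73.RS
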