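import Mathlib

/-! Project RS (MP_ecaebc_co): finitely additive means on the natural numbers.
A functional is any map `m` from real functions on `ℕ` to `ℝ`; a mean is positive, normalised
and linear on bounded functions and `0` on unbounded ones (so that the means form a compact set). -/

namespace Pool.Agent.Helper73.RS

/-- A bounded real function on any type. -/
def Bd {ι : Type*} (f : ι → ℝ) : Prop := ∃ C : ℝ, ∀ i, |f i| ≤ C

/-- All functionals on the real functions on `ℕ`. -/
def W : Type := (ℕ → ℝ) → ℝ

instance : TopologicalSpace W := inferInstanceAs (TopologicalSpace ((ℕ → ℝ) → ℝ))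

instance : T2Space W := inferInstanceAs (T2Space ((ℕ → ℝ) → ℝ))

/-- Convolution: `(m * n) f = m (a ↦ n (b ↦ f (a + b)))`. -/
instance : Semigroup W where
  mul m n := fun f => m (fun a => n (fun b => f (a + b)))
  mul_assoc m n k := by
    funext f
    show m (fun a => n (fun b => k (fun c => f (a + b + c)))) =
      m (fun a => n (fun b => k (fun c => f (a + (b + c)))))
    simp only [add_assoc]

theorem mul_def (m n : W) (f : ℕ → ℝ) :
    (m * n) f = m (fun a => n (fun b => f (a + b))) := rfl

/-- A finitely additive mean. -/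
structure IsMean (m : W) : Prop where
  add : ∀ f g : ℕ → ℝ, Bd f → Bd g → m (fun x => f x + g x) = m f + m g
  smul : ∀ (c : ℝ) (f : ℕ → ℝ), Bd f → m (fun x => c * f x) = c * m f
  nonneg : ∀ f : ℕ → ℝ, Bd f → (∀ x, 0 ≤ f x) → 0 ≤ m f
  one : m (fun _ => 1) = 1
  junk : ∀ f : ℕ → ℝ, ¬ Bd f → m f = 0

/-- Indicator function. -/
noncomputable def ind {ι : Type*} (U : Set ι) : ι → ℝ := U.indicator (fun _ => (1 : ℝ))

open Classical in
/-- Dilation of a functional: `dil n m f = m (x ↦ f (n x))` (for bounded `f`). -/
noncomputable def dil (n : ℕ) (m : W) : W := fun f => if Bd f then m (fun x => f (n * x)) else 0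

/-- Translation invariance. -/
def Inv (m : W) : Prop := ∀ f : ℕ → ℝ, Bd f → m (fun x => f (x + 1)) = m f

/-- Invariance under all dilations by positive integers. -/
def DInv (m : W) : Prop := ∀ n : ℕ, 1 ≤ n → ∀ f : ℕ → ℝ, Bd f → m (fun x => f (n * x)) = m f

/-- Positive upper Banach density: positive for some translation invariant mean. -/
def Large (U : Set ℕ) : Prop := ∃ μ : W, IsMean μ ∧ Inv μ ∧ 0 < μ (ind U)

/-- Sets of density recurrence. -/
def Rec (U : Set ℕ) : Prop :=
  ∀ B : Set ℕ, Large B → ∃ u ∈ U, Large {b | b ∈ B ∧ b + u ∈ B}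

/-- The means which vanish on sets of zero density and on sets which are not recurrent. -/
structure Good (m : W) : Prop where
  mean : IsMean m
  large : ∀ U : Set ℕ, ¬ Large U → m (ind U) = 0
  recur : ∀ U : Set ℕ, ¬ Rec U → m (ind U) = 0

end Pool.Agent.Helper73.RS
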