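import Pool.Agent.Helper73.RS.St

namespace Pool.Agent.Helper73.RS

open Filter Topology

theorem continuous_eval (f : ℕ → ℝ) : Continuous (fun m : W => m f) :=
  continuous_apply (A := fun _ : ℕ → ℝ => ℝ) f

theorem continuous_W {X : Type*} [TopologicalSpace X] (F : X → W)
    (h : ∀ f : ℕ → ℝ, Continuous (fun x => F x f)) : Continuous F :=
  continuous_pi (A := fun _ : ℕ → ℝ => ℝ) h

theorem continuous_dil (n : ℕ) : Continuous (dil n) := by
  refine continuous_W _ fun f => ?_
  by_cases hf : Bd f
  · simp only [dil_apply n _ hf]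
    exact continuous_eval _
  · have h1 : ∀ m : W, dil n m f = 0 := fun m => if_neg hf
    simp only [h1]
    exact continuous_const

theorem continuous_mul_right (r : W) : Continuous (fun m : W => m * r) := by
  refine continuous_W _ fun f => ?_
  simp only [mul_def]
  exact continuous_eval _

theorem isMean_avg (v : ℕ → W) (N : ℕ) (hv : ∀ i, IsMean (v i)) :
    IsMean (fun f => (∑ i ∈ Finset.range (N + 1), v i f) / (N + 1) : W) where
  add f g hf hg := by
    show (∑ i ∈ Finset.range (N + 1), v i (fun x => f x + g x)) / (N + 1 : ℝ) =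
      (∑ i ∈ Finset.range (N + 1), v i f) / (N + 1) + (∑ i ∈ Finset.range (N + 1), v i g) / (N + 1)
    rw [← add_div, ← Finset.sum_add_distrib]
    congr 1
    exact Finset.sum_congr rfl fun i _ => (hv i).add f g hf hg
  smul c f hf := by
    show (∑ i ∈ Finset.range (N + 1), v i (fun x => c * f x)) / (N + 1 : ℝ) =
      c * ((∑ i ∈ Finset.range (N + 1), v i f) / (N + 1))
    rw [← mul_div_assoc, Finset.mul_sum]
    congr 1
    exact Finset.sum_congr rfl fun i _ => (hv i).smul c f hf
  nonneg f hf h := by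
    show 0 ≤ (∑ i ∈ Finset.range (N + 1), v i f) / (N + 1 : ℝ)
    have h1 : (0 : ℝ) < N + 1 := by positivity
    exact div_nonneg (Finset.sum_nonneg fun i _ => (hv i).nonneg f hf h) h1.le
  one := by
    show (∑ i ∈ Finset.range (N + 1), v i (fun _ => 1)) / (N + 1 : ℝ) = 1
    have h1 : (0 : ℝ) < N + 1 := by positivity
    rw [Finset.sum_congr rfl fun i _ => (hv i).one]
    simp only [Finset.sum_const, Finset.card_range, nsmul_eq_mul, mul_one]
    push_cast
    exact div_self h1.ne'
  junk f hf := by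
    show (∑ i ∈ Finset.range (N + 1), v i f) / (N + 1 : ℝ) = 0
    rw [Finset.sum_eq_zero fun i _ => (hv i).junk f hf, zero_div]

theorem good_avg (v : ℕ → W) (N : ℕ) (hv : ∀ i, Good (v i)) :
    Good (fun f => (∑ i ∈ Finset.range (N + 1), v i f) / (N + 1) : W) where
  mean := isMean_avg v N fun i => (hv i).mean
  large U hU := by
    show (∑ i ∈ Finset.range (N + 1), v i (ind U)) / (N + 1 : ℝ) = 0
    rw [Finset.sum_eq_zero fun i _ => (hv i).large U hU, zero_div]
  recur U hU := by
    show (∑ i ∈ Finset.range (N + 1), v i (ind U)) / (N + 1 : ℝ) = 0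
    rw [Finset.sum_eq_zero fun i _ => (hv i).recur U hU, zero_div]

theorem holds_ELL : StELL := by
  rintro ⟨e, he⟩ hMU hDI hC hMK
  have hgood : Good (um e) :=
    ⟨isMean_um e, fun U hU => um_ind_of_notMem fun h => hU (he U h).1,
      fun U hU => um_ind_of_notMem fun h => hU (he U h).2⟩
  obtain ⟨m0, hm0, hm0'⟩ := hMK {m | Good m} ⟨um e, hgood⟩ hC (fun m hm => Good.mean hm)
    (fun n m hn hm => hDI n m hn hm) (fun v N hv => good_avg v N hv)
  let K : Set W := {m | Good m ∧ ∀ n : ℕ, 1 ≤ n → dil n m = m}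
  have hKc : IsCompact K := by
    have h1 : K = {m | Good m} ∩ ⋂ n : ℕ, ⋂ _ : 1 ≤ n, {m | dil n m = m} := by
      ext m
      simp only [K, Set.mem_inter_iff, Set.mem_iInter]
      rfl
    rw [h1]
    refine hC.inter_right ?_
    exact isClosed_iInter fun n => isClosed_iInter fun _ =>
      isClosed_eq (continuous_dil n) continuous_id
  have hmul : ∀ᵉ (x ∈ K) (y ∈ K), x * y ∈ K := by
    rintro m ⟨hm, hmd⟩ m' ⟨hm', hmd'⟩
    refine ⟨hMU m m' hm hm', fun n hn => ?_⟩
    refine IsMean.ext' (isMean_dil n (hm.mean.mul hm'.mean)) (hm.mean.mul hm'.mean) fun f hf => ?_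
    rw [dil_apply n _ hf, mul_def, mul_def]
    have h1 : ∀ a : ℕ, m' (fun b => f (n * (a + b))) = m' (fun b => f (n * a + b)) := by
      intro a
      have h2 : Bd (fun b => f (n * a + b)) := hf.comp fun b => n * a + b
      have h3 := congrArg (fun w : W => w (fun b => f (n * a + b))) (hmd' n hn)
      simp only [dil_apply n _ h2] at h3
      rw [← h3]
      simp only [mul_add]
    simp only [h1]
    have h4 : Bd (fun a => m' (fun b => f (a + b))) :=
      hm'.mean.bd_int (hf.comp fun q : ℕ × ℕ => q.1 + q.2)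
    have h5 := congrArg (fun w : W => w (fun a => m' (fun b => f (a + b)))) (hmd n hn)
    simp only [dil_apply n _ h4] at h5
    exact h5
  obtain ⟨m, ⟨hm, hmd⟩, hidem⟩ := exists_idempotent_in_compact_subsemigroup
    (fun r => continuous_mul_right r) K ⟨m0, hm0, hm0'⟩ hKc hmul
  refine ⟨m, hm, hidem, fun n hn f hf => ?_⟩
  have h1 := congrArg (fun w : W => w f) (hmd n hn)
  simp only [dil_apply n _ hf] at h1
  exact h1

end Pool.Agent.Helper73.RS
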