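import Pool.Agent.Helper73.RS.St

namespace Pool.Agent.Helper73.RS

open Filter Topology

/-- The analytic theorem: for two colours the three events have a common colour with positive
mean. -/
theorem ana (hCOR : StCOR) (hGAM : StGAM) (hKAP : StKAP) (hDEL : StDEL) (hCON : StCON)
    (m : W) (hm : Good m) (hid : m * m = m) (hd : DInv m) (c : ℕ → Fin 2) :
    ∃ t : Fin 2, 0 < m (fun x => m (ind {p | c x = t ∧ c (x + p) = t ∧ c (x * p) = t})) := by
  by_contra hcon
  have hmm := hm.mean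
  have h0 : ∀ t : Fin 2,
      m (fun x => m (ind {p | c x = t ∧ c (x + p) = t ∧ c (x * p) = t})) = 0 := by
    intro t
    by_contra hne
    refine hcon ⟨t, lt_of_le_of_ne ?_ (Ne.symm hne)⟩
    exact hmm.nonneg _ (Bd.of_nonneg_le (fun x => hmm.ind_nonneg _) fun x => hmm.ind_le_one _)
      fun x => hmm.ind_nonneg _
  set s : ℕ → ℝ := fun x => if c x = 0 then 1 else -1 with hs
  have hs1 : ∀ x, s x = 1 ∨ s x = -1 := by
    intro x
    by_cases h : c x = 0
    · left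
      simp [hs, h]
    · right
      simp [hs, h]
  have hc : ∀ x, c x = 0 ∨ c x = 1 := by
    intro x
    have := (c x).isLt
    rcases hx : c x with ⟨v, hv⟩
    interval_cases v
    · left; rfl
    · right; rfl
  have key : ∀ x p : ℕ, 1 + s x * s (x + p) + s (x + p) * s (x * p) + s x * s (x * p) =
      4 * (ind {p | c x = 0 ∧ c (x + p) = 0 ∧ c (x * p) = 0} p +
        ind {p | c x = 1 ∧ c (x + p) = 1 ∧ c (x * p) = 1} p) := by
    intro x p
    have hv0 : ∀ y, c y = 0 → s y = 1 := fun y hy => by simp [hs, hy]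
    have hv1 : ∀ y, c y = 1 → s y = -1 := fun y hy => by simp [hs, hy]
    rcases hc x with h1 | h1 <;> rcases hc (x + p) with h2 | h2 <;> rcases hc (x * p) with h3 | h3
    · rw [hv0 _ h1, hv0 _ h2, hv0 _ h3, ind_of_mem (by exact ⟨h1, h2, h3⟩),
        ind_of_notMem (by rintro ⟨h4, _⟩; rw [h1] at h4; exact absurd h4 (by decide))]
      norm_num
    · rw [hv0 _ h1, hv0 _ h2, hv1 _ h3,
        ind_of_notMem (by rintro ⟨_, _, h4⟩; rw [h3] at h4; exact absurd h4 (by decide)),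
        ind_of_notMem (by rintro ⟨h4, _⟩; rw [h1] at h4; exact absurd h4 (by decide))]
      norm_num
    · rw [hv0 _ h1, hv1 _ h2, hv0 _ h3,
        ind_of_notMem (by rintro ⟨_, h4, _⟩; rw [h2] at h4; exact absurd h4 (by decide)),
        ind_of_notMem (by rintro ⟨h4, _⟩; rw [h1] at h4; exact absurd h4 (by decide))]
      norm_num
    · rw [hv0 _ h1, hv1 _ h2, hv1 _ h3,
        ind_of_notMem (by rintro ⟨_, h4, _⟩; rw [h2] at h4; exact absurd h4 (by decide)),
        ind_of_notMem (by rintro ⟨h4, _⟩; rw [h1] at h4; exact absurd h4 (by decide))]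
      norm_num
    · rw [hv1 _ h1, hv0 _ h2, hv0 _ h3,
        ind_of_notMem (by rintro ⟨h4, _⟩; rw [h1] at h4; exact absurd h4 (by decide)),
        ind_of_notMem (by rintro ⟨_, h4, _⟩; rw [h2] at h4; exact absurd h4 (by decide))]
      norm_num
    · rw [hv1 _ h1, hv0 _ h2, hv1 _ h3,
        ind_of_notMem (by rintro ⟨h4, _⟩; rw [h1] at h4; exact absurd h4 (by decide)),
        ind_of_notMem (by rintro ⟨_, h4, _⟩; rw [h2] at h4; exact absurd h4 (by decide))]
      norm_num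
    · rw [hv1 _ h1, hv1 _ h2, hv0 _ h3,
        ind_of_notMem (by rintro ⟨h4, _⟩; rw [h1] at h4; exact absurd h4 (by decide)),
        ind_of_notMem (by rintro ⟨_, _, h4⟩; rw [h3] at h4; exact absurd h4 (by decide))]
      norm_num
    · rw [hv1 _ h1, hv1 _ h2, hv1 _ h3,
        ind_of_notMem (by rintro ⟨h4, _⟩; rw [h1] at h4; exact absurd h4 (by decide)),
        ind_of_mem (by exact ⟨h1, h2, h3⟩)]
      norm_num
  have h1 : m (fun x => m (fun p => 1 + s x * s (x + p) + s (x + p) * s (x * p) +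
      s x * s (x * p))) ≤ 0 := by
    simp only [key]
    have h2 : ∀ x, m (fun p => 4 * (ind {p | c x = 0 ∧ c (x + p) = 0 ∧ c (x * p) = 0} p +
        ind {p | c x = 1 ∧ c (x + p) = 1 ∧ c (x * p) = 1} p)) =
        4 * (m (ind {p | c x = 0 ∧ c (x + p) = 0 ∧ c (x * p) = 0}) +
        m (ind {p | c x = 1 ∧ c (x + p) = 1 ∧ c (x * p) = 1})) := by
      intro x
      rw [hmm.smul 4 _ ((Bd.ind _).add (Bd.ind _)), hmm.add _ _ (Bd.ind _) (Bd.ind _)]
    simp only [h2]
    have hb : ∀ t : Fin 2, Bd (fun x => m (ind {p | c x = t ∧ c (x + p) = t ∧ c (x * p) = t})) :=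
      fun t => Bd.of_nonneg_le (fun x => hmm.ind_nonneg _) fun x => hmm.ind_le_one _
    rw [hmm.smul 4 _ ((hb 0).add (hb 1)), hmm.add _ _ (hb 0) (hb 1), h0 0, h0 1]
    norm_num
  have h2 := hCOR m hm hid hd s hs1 h1
  have h3 := hGAM m hm hid hd s hs1 h2
  have h4 := hKAP m hm hd s hs1 h3
  have h5 := hDEL m hm hd s hs1 h3 h4
  exact hCON m hmm hid s hs1 h5

/-- From the combinatorial core to sets. -/
theorem core_sets (hCMB : StCMB) (P : Ultrafilter ℕ)
    (hP : ∀ V ∈ P, Large V ∧ Rec V) (B₀ : Set ℕ) (T : ℕ → Set ℕ) (hB₀ : Large B₀)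
    (hT : ∀ x ∈ B₀, T x ∈ P) :
    ∃ A B : Set ℕ, A.Infinite ∧ B.Infinite ∧ (∀ a ∈ A, 0 < a) ∧ (∀ b ∈ B, 0 < b) ∧
      (∀ a ∈ A, ∀ b ∈ B, a ≠ b) ∧
      ∀ b ∈ B, ∀ F : Finset ℕ, (∀ x ∈ F, x ∈ A ∧ x < b) → b + ∑ x ∈ F, x ∈ B₀ ∧
        ∀ a ∈ A, b < a → a ∈ T (b + ∑ x ∈ F, x) := by
  classical
  obtain ⟨a, b, hb0, hab, hB, hTT⟩ := hCMB P B₀ T (fun V hV => ⟨(hP V hV).2, (hP V hV).1.infinite⟩)
    hB₀ hT
  have ha : StrictMono a := strictMono_nat_of_lt_succ fun i =>
    (hab i).2.trans (hab (i + 1)).1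
  have hb : StrictMono b := strictMono_nat_of_lt_succ fun i =>
    (hab i).1.trans (hab i).2
  have h1 : ∀ i j, i < j → a i < b j := fun i j hij =>
    (hab i).2.trans_le (hb.monotone hij)
  have h2 : ∀ i j, i ≤ j → b i < a j := fun i j hij =>
    (hb.monotone hij).trans_lt (hab j).1
  have h3 : ∀ i j, a j < b i → j < i := by
    intro i j h
    by_contra hcon
    exact absurd h (not_lt.2 (h2 i j (not_lt.1 hcon)).le)
  have h4 : ∀ i j, b i < a j → i ≤ j := by
    intro i j h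
    by_contra hcon
    exact absurd h (not_lt.2 (h1 j i (not_le.1 hcon)).le)
  have hF : ∀ (i : ℕ) (F : Finset ℕ), (∀ x ∈ F, x ∈ Set.range a ∧ x < b i) →
      ∃ G : Finset ℕ, (∀ j ∈ G, j < i) ∧ ∑ x ∈ F, x = ∑ j ∈ G, a j := by
    intro i F hF
    refine ⟨(Finset.range i).filter fun j => a j ∈ F, fun j hj =>
      Finset.mem_range.1 (Finset.mem_filter.1 hj).1, ?_⟩
    symm
    refine Finset.sum_bij (fun j _ => a j) (fun j hj => (Finset.mem_filter.1 hj).2)
      (fun j _ k _ h => ha.injective h) (fun x hx => ?_) (fun j _ => rfl)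
    obtain ⟨⟨j, rfl⟩, hlt⟩ := hF x hx
    exact ⟨j, Finset.mem_filter.2 ⟨Finset.mem_range.2 (h3 i j hlt), hx⟩, rfl⟩
  refine ⟨Set.range a, Set.range b, Set.infinite_range_of_injective ha.injective,
    Set.infinite_range_of_injective hb.injective, ?_, ?_, ?_, ?_⟩
  · rintro _ ⟨i, rfl⟩
    exact (Nat.zero_le _).trans_lt (hab i).1
  · rintro _ ⟨i, rfl⟩
    exact hb0.trans_le (hb.monotone (Nat.zero_le i))
  · rintro _ ⟨i, rfl⟩ _ ⟨j, rfl⟩
    rcases lt_or_ge i j with h | h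
    · exact (h1 i j h).ne
    · exact (h2 j i h).ne'
  · rintro _ ⟨i, rfl⟩ F hF'
    obtain ⟨G, hG, hsum⟩ := hF i F hF'
    rw [hsum]
    refine ⟨hB i G hG, ?_⟩
    rintro _ ⟨k, rfl⟩ hlt
    exact hTT i k G hG (h4 i k hlt)

end Pool.Agent.Helper73.RS
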