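import Pool.Agent.Helper73.RS.St

namespace Pool.Agent.Helper73.RS

open Filter Topology

theorem bonf (A : ℕ → Set ℕ) (k : ℕ) (x : ℕ) :
    ∑ i ∈ Finset.range k, ind (A i) x ≤
      1 + ∑ i ∈ Finset.range k, ∑ j ∈ Finset.range i, ind (A j ∩ A i) x := by
  induction k with
  | zero => simp
  | succ k ih =>
    rw [Finset.sum_range_succ, Finset.sum_range_succ]
    have h0 : 0 ≤ ∑ j ∈ Finset.range k, ind (A j ∩ A k) x :=
      Finset.sum_nonneg fun j _ => ind_nonneg _ _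
    by_cases hk : x ∈ A k
    · rw [ind_of_mem hk]
      by_cases hj : ∃ j ∈ Finset.range k, x ∈ A j
      · obtain ⟨j, hj, hxj⟩ := hj
        have h1 : ind (A j ∩ A k) x ≤ ∑ j ∈ Finset.range k, ind (A j ∩ A k) x :=
          Finset.single_le_sum (f := fun j => ind (A j ∩ A k) x) (fun i _ => ind_nonneg _ _) hj
        rw [ind_of_mem (show x ∈ A j ∩ A k from ⟨hxj, hk⟩)] at h1
        linarith
      · have h1 : ∑ i ∈ Finset.range k, ind (A i) x = 0 := by
          refine Finset.sum_eq_zero fun i hi => ind_of_notMem fun h => hj ⟨i, hi, h⟩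
        have h2 : 0 ≤ ∑ i ∈ Finset.range k, ∑ j ∈ Finset.range i, ind (A j ∩ A i) x :=
          Finset.sum_nonneg fun i _ => Finset.sum_nonneg fun j _ => ind_nonneg _ _
        linarith
    · rw [ind_of_notMem hk]
      linarith

theorem IsMean.bonf {m : W} (hm : IsMean m) (A : ℕ → Set ℕ) (k : ℕ) :
    ∑ i ∈ Finset.range k, m (ind (A i)) ≤
      1 + ∑ i ∈ Finset.range k, ∑ j ∈ Finset.range i, m (ind (A j ∩ A i)) := by
  have h1 : ∀ i ∈ Finset.range k, Bd (ind (A i)) := fun i _ => Bd.ind _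
  have h2 : ∀ i ∈ Finset.range k, Bd (fun x => ∑ j ∈ Finset.range i, ind (A j ∩ A i) x) :=
    fun i _ => Bd.sum _ fun j _ => Bd.ind _
  have h3 := hm.mono (Bd.sum _ h1) ((Bd.const 1).add (Bd.sum _ h2)) (RS.bonf A k)
  rw [hm.sum _ h1, hm.add _ _ (Bd.const 1) (Bd.sum _ h2), hm.const, hm.sum _ h2] at h3
  refine h3.trans (le_of_eq ?_)
  congr 1
  refine Finset.sum_congr rfl fun i _ => ?_
  exact hm.sum _ fun j _ => Bd.ind _

theorem its_step {m : W} (hm : IsMean m) (D : ℕ → Set ℕ) (J : Set ℕ) (hJ : J.Infinite) (β : ℝ)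
    (hβ : 0 < β) (h : ∀ n ∈ J, β ≤ m (ind (D n))) :
    ∃ n0 ∈ J, ∃ β' : ℝ, 0 < β' ∧ ∃ J' ⊆ J, J'.Infinite ∧ (∀ n ∈ J', n0 < n) ∧
      ∀ n ∈ J', β' ≤ m (ind (D n0 ∩ D n)) := by
  by_contra hcon
  have H : ∀ n0 ∈ J, ∀ β' : ℝ, 0 < β' →
      {n | n ∈ J ∧ n0 < n ∧ β' ≤ m (ind (D n0 ∩ D n))}.Finite := by
    intro n0 hn0 β' hβ'
    by_contra hinf
    exact hcon ⟨n0, hn0, β', hβ', _, fun n hn => hn.1, hinf, fun n hn => hn.2.1,
      fun n hn => hn.2.2⟩
  obtain ⟨k, hk⟩ := exists_nat_ge (2 / β)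
  have hkβ : 2 ≤ k * β := (div_le_iff₀ hβ).1 hk
  have hk0 : (0 : ℝ) < k := by
    by_contra hk0
    have : (k : ℝ) = 0 := le_antisymm (not_lt.1 hk0) (Nat.cast_nonneg k)
    rw [this] at hkβ
    linarith
  set β' : ℝ := 1 / (k * k) with hβ'
  have hβ'0 : 0 < β' := by positivity
  obtain ⟨n, hnJ, hn⟩ := exists_seq_of_forall_finset_exists (fun x : ℕ => x ∈ J)
    (fun x y : ℕ => x < y ∧ m (ind (D x ∩ D y)) < β') (by
      intro s hs
      have hfin : (⋃ x ∈ s, ({n | n ∈ J ∧ x < n ∧ β' ≤ m (ind (D x ∩ D n))} ∪ Set.Iic x)).Finite :=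
        s.finite_toSet.biUnion fun x hx => (H x (hs x hx) β' hβ'0).union (Set.finite_Iic x)
      obtain ⟨y, hyJ, hy⟩ := (hJ.sdiff hfin).nonempty
      refine ⟨y, hyJ, fun x hx => ?_⟩
      have h1 : y ∉ {n | n ∈ J ∧ x < n ∧ β' ≤ m (ind (D x ∩ D n))} ∪ Set.Iic x :=
        fun h => hy (Set.mem_biUnion hx h)
      have h2 : x < y := by
        by_contra h2
        exact h1 (Or.inr (not_lt.1 h2))
      refine ⟨h2, ?_⟩
      by_contra h3
      exact h1 (Or.inl ⟨hyJ, h2, not_lt.1 h3⟩))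
  have h1 := hm.bonf (fun i => D (n i)) k
  have h2 : (k : ℝ) * β ≤ ∑ i ∈ Finset.range k, m (ind (D (n i))) := by
    have := Finset.card_nsmul_le_sum (Finset.range k) (fun i => m (ind (D (n i)))) β
      (fun i _ => h _ (hnJ i))
    simpa using this
  have h3 : ∑ i ∈ Finset.range k, ∑ j ∈ Finset.range i, m (ind (D (n j) ∩ D (n i))) ≤
      ∑ i ∈ Finset.range k, ((i : ℝ) * β') := by
    refine Finset.sum_le_sum fun i _ => ?_
    have := Finset.sum_le_card_nsmul (Finset.range i)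
      (fun j => m (ind (D (n j) ∩ D (n i)))) β'
      (fun j hj => (hn j i (Finset.mem_range.1 hj)).2.le)
    simpa using this
  have h4 : ∀ k : ℕ, ∑ i ∈ Finset.range k, ((i : ℝ) * β') ≤ (k : ℝ) * k / 2 * β' := by
    intro k
    induction k with
    | zero => simp
    | succ k ih =>
      rw [Finset.sum_range_succ]
      push_cast
      nlinarith
  have h5 := h4 k
  have h6 : (k : ℝ) * k / 2 * β' = 1 / 2 := by
    rw [hβ']
    field_simp
  rw [h6] at h5
  linarith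

/-- State of the recursion. -/
structure ItsState (m : W) (D : ℕ → Set ℕ) where
  V : Set ℕ
  J : Set ℕ
  β : ℝ
  inf : J.Infinite
  pos : 0 < β
  le : ∀ n ∈ J, β ≤ m (ind (V ∩ D n))

theorem holds_ITS : StITS := by
  intro m hm D β hβ hD
  have step : ∀ s : ItsState m D, ∃ (n0 : ℕ) (s' : ItsState m D), n0 ∈ s.J ∧
      s'.V = s.V ∩ D n0 ∧ s'.J ⊆ s.J ∧ ∀ n ∈ s'.J, n0 < n := by
    intro s
    obtain ⟨n0, hn0, β', hβ', J', hJ', hinf, hlt, hle⟩ :=
      its_step hm (fun n => s.V ∩ D n) s.J s.inf s.β s.pos s.le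
    refine ⟨n0, ⟨s.V ∩ D n0, J', β', hinf, hβ', fun n hn => ?_⟩, hn0, rfl, hJ', hlt⟩
    refine (hle n hn).trans (hm.ind_mono ?_)
    rintro x ⟨⟨h1, h2⟩, h3, h4⟩
    exact ⟨⟨h1, h2⟩, h4⟩
  choose N S hN hV hJ hlt using step
  let s : ℕ → ItsState m D := fun k => Nat.rec
    ⟨Set.univ, Set.univ, β, Set.infinite_univ, hβ, fun n _ => by rw [Set.univ_inter]; exact hD n⟩
    (fun _ s => S s) k
  have hs : ∀ k, s (k + 1) = S (s k) := fun k => rfl
  have hpos : ∀ k, 0 < m (ind (s k).V) := by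
    intro k
    obtain ⟨n, hn⟩ := (s k).inf.nonempty
    exact ((s k).pos.trans_le ((s k).le n hn)).trans_le (hm.ind_mono Set.inter_subset_left)
  have hVs : ∀ k, (s (k + 1)).V ⊆ (s k).V := by
    intro k
    rw [hs, hV]
    exact Set.inter_subset_left
  have hanti : Antitone fun k => (s k).V := antitone_nat_of_succ_le hVs
  have hmono : StrictMono fun k => N (s k) := by
    refine strictMono_nat_of_lt_succ fun k => ?_
    refine hlt (s k) _ ?_
    have := hN (s (k + 1))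
    rwa [hs] at this
  let F : Filter ℕ :=
    { sets := {X | ∃ k, m (ind ((s k).V \ X)) = 0}
      univ_sets := ⟨0, by
        rw [Set.sdiff_univ]
        have h6 : (ind (∅ : Set ℕ)) = fun _ => (0 : ℝ) := by
          funext x
          exact ind_of_notMem (Set.notMem_empty x)
        rw [h6, hm.const]⟩
      sets_of_superset := by
        rintro X Y ⟨k, hk⟩ hXY
        exact ⟨k, le_antisymm ((hm.ind_mono (Set.sdiff_subset_sdiff_right hXY)).trans hk.le)
          (hm.ind_nonneg _)⟩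
      inter_sets := by
        rintro X Y ⟨k, hk⟩ ⟨l, hl⟩
        refine ⟨max k l, le_antisymm ?_ (hm.ind_nonneg _)⟩
        have h1 : (s (max k l)).V \ (X ∩ Y) ⊆ ((s k).V \ X) ∪ ((s l).V \ Y) := by
          rintro x ⟨hx, hxy⟩
          by_cases h2 : x ∈ X
          · exact Or.inr ⟨hanti (le_max_right k l) hx, fun h3 => hxy ⟨h2, h3⟩⟩
          · exact Or.inl ⟨hanti (le_max_left k l) hx, h2⟩
        have h2 := (hm.ind_mono h1).trans (hm.ind_union _ _)
        rw [hk, hl] at h2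
        linarith }
  have hne : F.NeBot := by
    refine ⟨fun hbot => ?_⟩
    have h1 : (∅ : Set ℕ) ∈ F := by
      rw [hbot]
      exact mem_bot
    obtain ⟨k, hk⟩ := h1
    rw [Set.sdiff_empty] at hk
    exact (hpos k).ne' hk
  have hle : (Ultrafilter.of F : Filter ℕ) ≤ F := Ultrafilter.of_le F
  refine ⟨Ultrafilter.of F, fun V hV => ?_, ?_⟩
  · refine lt_of_le_of_ne (hm.ind_nonneg V) fun h0 => ?_
    have h1 : Vᶜ ∈ F := ⟨0, le_antisymm ((hm.ind_mono (V := V) (by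
      rintro x ⟨_, hx⟩
      exact not_not.1 hx)).trans h0.ge) (hm.ind_nonneg _)⟩
    exact Ultrafilter.compl_notMem_iff.2 hV (hle h1)
  · refine Set.infinite_of_injective_forall_mem hmono.injective fun k => ?_
    refine hle ⟨k + 1, ?_⟩
    have h1 : (s (k + 1)).V \ D (N (s k)) = ∅ := by
      rw [hs, hV]
      ext x
      simp
    rw [h1]
    have h6 : (ind (∅ : Set ℕ)) = fun _ => (0 : ℝ) := by
      funext x
      exact ind_of_notMem (Set.notMem_empty x)
    rw [h6, hm.const]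

end Pool.Agent.Helper73.RS
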