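import Pool.Agent.Helper73.RS.Fin

namespace Pool.Agent.Helper73.RS

open Filter Topology

/-- Part (1), from an ultrafilter as in module PWR. -/
theorem part_one (hCMB : StCMB) {κ : Type*} (c : ℕ → κ) (P : Ultrafilter ℕ) (t : κ)
    (hP : ∀ V ∈ P, Large V ∧ Rec V) (hL : Large {b | c b = t ∧ {a | c (b * a) = t} ∈ P}) :
    ∃ A B : Set ℕ, A.Infinite ∧ B.Infinite ∧ (∀ a ∈ A, 0 < a) ∧ (∀ b ∈ B, 0 < b) ∧
      (∀ b ∈ B, c b = t) ∧ (∀ a ∈ A, ∀ b ∈ B, a < b → c (a + b) = t) ∧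
      (∀ a ∈ A, ∀ b ∈ B, b < a → c (a * b) = t) ∧
      ∀ b ∈ B, ∀ F : Finset ℕ, (∀ x ∈ F, x ∈ A ∧ x < b) → c (b + ∑ x ∈ F, x) = t ∧
        ∀ a ∈ A, b < a → c ((b + ∑ x ∈ F, x) * a) = t := by
  obtain ⟨A, B, hA, hB, hA0, hB0, hne, h⟩ := core_sets hCMB P hP
    {b | c b = t ∧ {a | c (b * a) = t} ∈ P} (fun b => {a | c (b * a) = t}) hL (fun x hx => hx.2)
  refine ⟨A, B, hA, hB, hA0, hB0, fun b hb => ?_, fun a ha b hb hab => ?_,
    fun a ha b hb hab => ?_, fun b hb F hF => ⟨(h b hb F hF).1.1, fun a ha hab =>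
      (h b hb F hF).2 a ha hab⟩⟩
  · have h1 := (h b hb ∅ (fun x hx => absurd hx (Finset.notMem_empty x))).1.1
    rwa [Finset.sum_empty, add_zero] at h1
  · have h1 := (h b hb {a} (fun x hx => by rw [Finset.mem_singleton.1 hx]; exact ⟨ha, hab⟩)).1.1
    rwa [Finset.sum_singleton, add_comm] at h1
  · have h1 : c ((b + ∑ x ∈ (∅ : Finset ℕ), x) * a) = t :=
      (h b hb ∅ (fun x hx => absurd hx (Finset.notMem_empty x))).2 a ha hab
    rwa [Finset.sum_empty, add_zero, mul_comm] at h1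

/-- Part (2), from an ultrafilter as in module EXT. -/
theorem part_two (hCMB : StCMB) {κ : Type*} (c : ℕ → κ) (P : Ultrafilter ℕ) (t : κ)
    (hP : ∀ V ∈ P, Large V ∧ Rec V)
    (hL : Large {x | {p | c x = t ∧ c (x + p) = t ∧ c (x * p) = t} ∈ P}) :
    ∃ A B : Set ℕ, A.Infinite ∧ B.Infinite ∧ (∀ a ∈ A, 0 < a) ∧ (∀ b ∈ B, 0 < b) ∧
      (∀ b ∈ B, c b = t) ∧ (∀ a ∈ A, ∀ b ∈ B, c (a + b) = t) ∧
      (∀ a ∈ A, ∀ b ∈ B, b < a → c (a * b) = t) ∧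
      ∀ b ∈ B, ∀ F : Finset ℕ, (∀ x ∈ F, x ∈ A ∧ x < b) → c (b + ∑ x ∈ F, x) = t ∧
        ∀ a ∈ A, b < a → c ((b + ∑ x ∈ F, x) + a) = t ∧ c ((b + ∑ x ∈ F, x) * a) = t := by
  have hx0 : ∀ x ∈ {x | {p | c x = t ∧ c (x + p) = t ∧ c (x * p) = t} ∈ P}, c x = t := by
    intro x hx
    obtain ⟨p, hp⟩ := Ultrafilter.nonempty_of_mem hx
    exact hp.1
  obtain ⟨A, B, hA, hB, hA0, hB0, hne, h⟩ := core_sets hCMB P hP
    {x | {p | c x = t ∧ c (x + p) = t ∧ c (x * p) = t} ∈ P}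
    (fun x => {p | c x = t ∧ c (x + p) = t ∧ c (x * p) = t}) hL (fun x hx => hx)
  have h2 : ∀ b ∈ B, ∀ F : Finset ℕ, (∀ x ∈ F, x ∈ A ∧ x < b) → c (b + ∑ x ∈ F, x) = t ∧
        ∀ a ∈ A, b < a → c ((b + ∑ x ∈ F, x) + a) = t ∧ c ((b + ∑ x ∈ F, x) * a) = t :=
    fun b hb F hF => ⟨hx0 _ (h b hb F hF).1, fun a ha hab => ((h b hb F hF).2 a ha hab).2⟩
  refine ⟨A, B, hA, hB, hA0, hB0, fun b hb => ?_, fun a ha b hb => ?_,
    fun a ha b hb hab => ?_, h2⟩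
  · have h1 := (h2 b hb ∅ (fun x hx => absurd hx (Finset.notMem_empty x))).1
    rwa [Finset.sum_empty, add_zero] at h1
  · rcases lt_or_gt_of_ne (hne a ha b hb) with hab | hab
    · have h1 := (h2 b hb {a}
        (fun x hx => by rw [Finset.mem_singleton.1 hx]; exact ⟨ha, hab⟩)).1
      rwa [Finset.sum_singleton, add_comm] at h1
    · have h1 := ((h2 b hb ∅ (fun x hx => absurd hx (Finset.notMem_empty x))).2 a ha hab).1
      rwa [Finset.sum_empty, add_zero, add_comm] at h1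
  · have h1 := ((h2 b hb ∅ (fun x hx => absurd hx (Finset.notMem_empty x))).2 a ha hab).2
    rwa [Finset.sum_empty, add_zero, mul_comm] at h1

end Pool.Agent.Helper73.RS
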