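import Pool.Agent.Helper73.RS.St

namespace Pool.Agent.Helper73.RS

open Filter Topology

attribute [local instance] Ultrafilter.mul Ultrafilter.semigroup

theorem holds_PWR : StPWR := by
  rintro hL hR ⟨e, he⟩ r c
  let E : ℕ → Ultrafilter ℕ := fun k => Nat.rec e (fun _ U => e * U) k
  have hE : ∀ k, E (k + 1) = e * E k := fun k => rfl
  have hmem : ∀ k, ∀ V ∈ E k, Large V ∧ Rec V := by
    intro k
    induction k with
    | zero => exact he
    | succ k ih =>
      intro V hV
      rw [hE] at hV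
      have h1 : {x | {y | x * y ∈ V} ∈ E k} ∈ e :=
        (Ultrafilter.eventually_mul e (E k) (fun z => z ∈ V)).1 hV
      obtain ⟨x, hx, hx0⟩ := (he _ h1).1.infinite.exists_gt 0
      have h3 := ih _ hx
      refine ⟨(hL x 0 _ hx0 h3.1).mono ?_, hR x V hx0 h3.2⟩
      rintro _ ⟨y, hy, rfl⟩
      exact hy
  have hmul : ∀ i j, E i * E j = E (i + j + 1) := by
    intro i j
    induction i with
    | zero =>
      rw [Nat.zero_add]
      rfl
    | succ i ih =>
      have h1 : i + 1 + j + 1 = (i + j + 1) + 1 := by ring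
      rw [hE, mul_assoc, ih, h1, hE]
  have hcol : ∀ k, ∃ t : Fin r, {b | c b = t} ∈ E k := by
    intro k
    have h1 : (⋃ t ∈ (Set.univ : Set (Fin r)), {b | c b = t}) ∈ E k := by
      have h2 : (⋃ t ∈ (Set.univ : Set (Fin r)), {b | c b = t}) = Set.univ := by
        ext b
        simp
      rw [h2]
      exact univ_mem
    obtain ⟨t, _, ht⟩ := (Ultrafilter.finite_biUnion_mem_iff Set.finite_univ).1 h1
    exact ⟨t, ht⟩
  choose t ht using hcol
  obtain ⟨i, j, hij, htij⟩ : ∃ i j, i < j ∧ t i = t j := by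
    obtain ⟨i, j, hne, h⟩ := Finite.exists_ne_map_eq_of_infinite t
    rcases lt_or_gt_of_ne hne with h1 | h1
    · exact ⟨i, j, h1, h⟩
    · exact ⟨j, i, h1, h.symm⟩
  refine ⟨E (j - i - 1), t i, hmem _, (hmem i _ ?_).1⟩
  have h1 : {b | c b = t i} ∈ E i := ht i
  have h2 : {b | {a | c (b * a) = t i} ∈ E (j - i - 1)} ∈ E i := by
    have h3 : {b | c b = t j} ∈ E i * E (j - i - 1) := by
      have h4 : i + (j - i - 1) + 1 = j := by omega
      rw [hmul, h4]
      exact ht j
    rw [← htij] at h3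
    exact (Ultrafilter.eventually_mul (E i) (E (j - i - 1)) (fun z => c z = t i)).1 h3
  exact inter_mem h1 h2

end Pool.Agent.Helper73.RS
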