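import Pool.Agent.Helper73.RS.Basic

/-! # Project RS (MP_ecaebc_co): module statements

Read `Defs.lean` (definitions `Bd`, `W`, `IsMean`, `ind`, `dil`, `Inv`, `DInv`, `Large`, `Rec`,
`Good`, product of functionals `mul_def`) and `Basic.lean` (the API: `Bd.add/mul/comp/...`,
`IsMean.add/sub/smul/mono/sum/bd_int/ind_mono/pos_of_pos/mul`, `Large.mono/union/infinite`,
`large_shift`, `Inv.add`, `Good.fin/mono_pos/congr_pos`, `ext`, `isMean_ext`, `ulim`,
`tendsto_ulim`, `um`, `isMean_um`, `um_ind_of_mem`).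
A module XXX is the theorem `holds_XXX : RS.StXXX` in `Pool/Agent/<You>/RS/XXX.lean`. -/

namespace Pool.Agent.Helper73.RS

open Filter Topology

/-- MODULE LDI (about 60 lines). Affine images of large sets are large.
PROOF. Let `μ` be an invariant mean with `μ (ind V) > 0`. Put
`φ f = (∑ i in range n, μ (x ↦ f (n x + i))) / n` and `ν = ext φ`; `isMean_ext` gives `IsMean ν`.
Invariance (for bounded `f`): `φ (f (· + 1)) = (∑ i in range n, μ (x ↦ f (n x + (i + 1)))) / n`;
the sum over `i + 1 = 1, ..., n` differs from the sum over `0, ..., n - 1` in the last term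
`μ (x ↦ f (n x + n)) = μ (x ↦ f (n (x + 1)))`, which equals `μ (x ↦ f (n x))` by `Inv μ`
applied to `x ↦ f (n x)` (use `Finset.sum_range_succ'` and `Finset.sum_range_succ`).
So `ν` is invariant. The image set `U = {y | ∃ x ∈ V, y = n x}` has `ind U (n x) = ind V x`, so the
term `i = 0` of `ν (ind U)` is `μ (ind V) / n > 0` and all the other terms are `≥ 0`
(`IsMean.nonneg`). The shift by `j`: `{y | ∃ x ∈ V, y = n x + j}` is large since
`{z | z + j ∈ that set} ⊇ U` (`large_shift`, `Large.mono`). -/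
def StLDI : Prop := ∀ (n j : ℕ) (V : Set ℕ), 1 ≤ n → Large V →
  Large {y | ∃ x ∈ V, y = n * x + j}

/-- MODULE LRS (about 80 lines). A large set is large in some residue class.
PROOF. `μ` invariant mean with `μ (ind U) > 0`. For `j < n` let `g_j (x) = 1` if `x % n = j`, else
`0` (it is `ind {x | x % n = j}`); `∑_{j<n} g_j = 1` pointwise, so
`μ (ind U) = ∑_{j<n} μ (x ↦ ind U x * g_j x)` (`IsMean.sum`), hence some `j < n` has
`μ (x ↦ ind U x * g_j x) > 0`. Put `φ f = n * μ (x ↦ f (x / n) * g_j x)` (natural division) and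
`ν = ext φ`. It is a mean: only `φ 1 = n * μ g_j = 1` needs a proof: `μ g_i` is the same for all
`i < n`: `g_{i+1} (x + 1) = g_i x` for `i + 1 < n`, so `μ g_{i+1} = μ g_i` by invariance, and
`∑ μ g_i = μ 1 = 1`. Invariance of `ν`: `f (x / n + 1) * g_j x = h (x + n)` with
`h x = f (x / n) * g_j x` (`Nat.add_div_right`, `Nat.add_mod_right`), so
`μ (x ↦ h (x + n)) = μ h` by `Inv.add`. Finally `ind {x | n x + j ∈ U} (x / n) * g_j x =
ind U x * g_j x` because `n * (x / n) + x % n = x`; so `ν (ind {x | n x + j ∈ U}) > 0`. -/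
def StLRS : Prop := ∀ (n : ℕ) (U : Set ℕ), 1 ≤ n → Large U →
  ∃ j < n, Large {x | n * x + j ∈ U}

/-- MODULE WOU (about 30 lines). A large set has long windows of density at least `α`.
PROOF. `μ` invariant mean, `μ (ind U) = 2 α > 0`. Given `L`: if `L = 0` take `s = 0`. Suppose that
`∑ i in range L, ind U (s + i) < α L` for all `s`. Then
`2 α L = ∑_{i<L} μ (s ↦ ind U (s + i)) = μ (s ↦ ∑_{i<L} ind U (s + i)) ≤ α L`
(`Inv.add`, `IsMean.sum`, `IsMean.le_of_le`), a contradiction. -/
def StWOU : Prop := ∀ U : Set ℕ, Large U →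
  ∃ α : ℝ, 0 < α ∧ ∀ L : ℕ, ∃ s : ℕ, α * L ≤ ∑ i ∈ Finset.range L, ind U (s + i)

/-- MODULE WIN (about 80 lines). Conversely, arbitrarily long windows of density at least `α`
give a large set.
PROOF. Choose `L k ≥ k + 1` and `s k` with `α * L k ≤ ∑ i in range (L k), ind U (s k + i)`. Put
`A f k = (∑ i in range (L k), f (s k + i)) / L k` and `φ f = ulim H (A f)` where `H = hyperfilter ℕ`
(Mathlib's `Filter.hyperfilter`, an ultrafilter finer than `atTop`: `Nat.hyperfilter_le_atTop`).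
If `|f| ≤ C` then `|A f k| ≤ C`; `A` is additive, homogeneous, positive, `A 1 = 1`. So
`μ = ext φ` is a mean (`isMean_ext`, `ulim_add`, `ulim_smul`, `ulim_nonneg`, `ulim_const`).
Invariance: `A (f (· + 1)) k - A f k = (f (s k + L k) - f (s k)) / L k`, of absolute value
`≤ 2 C / (k + 1) → 0` along `atTop`, hence along `H`; so the two limits agree
(`tendsto_ulim`, `ulim_eq`, `tendsto_nhds_unique`). Finally `A (ind U) k ≥ α` for all `k`, so
`μ (ind U) ≥ α > 0`. -/
def StWIN : Prop := ∀ (U : Set ℕ) (α : ℝ), 0 < α →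
  (∀ N : ℕ, ∃ L s : ℕ, N ≤ L ∧ α * L ≤ ∑ i ∈ Finset.range L, ind U (s + i)) → Large U

/-- MODULE RCU (about 80 lines). Poincare recurrence along the differences of a sequence.
PROOF. `μ` invariant mean with `μ (ind B) = α > 0`. Let `A i = {x | x + S i ∈ B}`; then
`μ (ind (A i)) = α` (`ind_comp`, `Inv.add`). Suppose `μ (ind (A i ∩ A j)) = 0` for all `i < j`. Take
`k` with `k α > 1`. Pointwise, with `h = ∑_{i<k} ind (A i) x` (a natural number `t`), one has
`∑_{i<k} ∑_{j<i} ind (A j ∩ A i) x = t (t - 1) / 2 ≥ t - 1`, so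
`∑_{i<k} ind (A i) x ≤ 1 + ∑_{i<k} ∑_{j<i} ind (A j ∩ A i) x`
(easy induction on `k`: if `x ∉ A k` nothing changes; if `x ∈ A k` then either some `j < k` has
`x ∈ A j` and the right side grows by at least one, or the left side was `0`). Integrating,
`k α ≤ 1 + 0`, a contradiction. So some `i < j` has `μ (ind (A i ∩ A j)) > 0`, that is
`{x | x + S i ∈ B ∧ x + S j ∈ B}` is large; it is `{x | x + S i ∈ V}` with
`V = {b | b ∈ B ∧ b + (S j - S i) ∈ B}` (as `S i ≤ S j`), and `large_shift` gives that `V` is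
large. -/
def StRCU : Prop := ∀ (B : Set ℕ) (S : ℕ → ℕ), Large B → Monotone S →
  ∃ i j : ℕ, i < j ∧ Large {b | b ∈ B ∧ b + (S j - S i) ∈ B}

/-- MODULE RDI (about 30 lines). Multiples of recurrent sets are recurrent.
PROOF. Let `B` be large. By `StLRS` some `j < n` has `B' = {x | n x + j ∈ B}` large. As
`{x | n x ∈ U}` is recurrent there is `x0` with `n x0 ∈ U` and `V = {y | y ∈ B' ∧ y + x0 ∈ B'}`
large. By `StLDI` the set `{z | ∃ y ∈ V, z = n y + j}` is large, and it is contained in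
`{b | b ∈ B ∧ b + n x0 ∈ B}`. -/
def StRDI : Prop := StLDI → StLRS → ∀ (n : ℕ) (U : Set ℕ), 1 ≤ n → Rec {x | n * x ∈ U} → Rec U

/-- MODULE IDM (about 80 lines). An ultrafilter of large recurrent sets.
PROOF. `Large univ` by `StWIN` with `α = 1`. Let `K` be the set of ultrafilters `U` on `ℕ` all of
whose members are large, `K = ⋂_{V not large} {U | Vᶜ ∈ U}`: closed (`ultrafilter_isClosed_basic`),
hence compact. Nonempty: the sets `V` with `Vᶜ` not large form a proper filter (`Large.union`,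
`Large univ`); any ultrafilter `U` finer than it (`Ultrafilter.of`) is in `K`. Closed under the
addition `Ultrafilter.add` of Mathlib (`V ∈ p + q ↔ {a | {b | a + b ∈ V} ∈ q} ∈ p`,
`Ultrafilter.eventually_add`): some `a` has `{b | a + b ∈ V} ∈ q`, so it is large, so `V` is
large by `large_shift`. By `exists_idempotent_in_compact_addSubsemigroup` (with
`Ultrafilter.continuous_add_left`) there is `e ∈ K` with `e + e = e`. If `U ∈ e`, then by
`Hindman.exists_FS_of_large` there is a stream `a` with `Hindman.FS a ⊆ U`; with the initial sums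
`S k = ∑ i in range k, a.get i`, `S j - S i = ∑ l in Ico i j, a.get l ∈ FS a`
(`Hindman.FS.finset_sum`, `Finset.sum_range_add_sum_Ico` or `Finset.sum_Ico_eq_sub`). So for every
large `B`, `StRCU` gives `u = S j - S i ∈ U` as required: `Rec U`. (See
Mathlib/Combinatorics/Hindman.lean for the local instances to activate:
`attribute [local instance] Ultrafilter.add Ultrafilter.addSemigroup`.) -/
def StIDM : Prop := StWIN → StRCU → ∃ e : Ultrafilter ℕ, ∀ U ∈ e, Large U ∧ Rec U

/-- MODULE PWR (about 100 lines). Powers of `e` and the pigeonhole.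
PROOF. Let `e` be as in `StIDM`. With the multiplication `Ultrafilter.mul` of Mathlib
(`V ∈ p * q ↔ {x | {y | x * y ∈ V} ∈ q} ∈ p`, `Ultrafilter.eventually_mul`, a semigroup
`Ultrafilter.semigroup`) let `E 0 = e`, `E (k + 1) = e * E k`. By induction every member `V` of
`E k` is large and recurrent: if `V ∈ E (k + 1)` then `{x | {y | x * y ∈ V} ∈ E k} ∈ e` is large,
hence infinite, hence contains some `x ≥ 1`; `{y | x * y ∈ V} ∈ E k` is large and recurrent, so
`V` is recurrent by `StRDI` and large by `StLDI` (`j = 0`) and `Large.mono`. By induction on `i`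
(associativity) `E i * E j = E (i + j + 1)`. Each `E k` has a colour `t_k`, `{b | c b = t_k} ∈ E k`
(`Ultrafilter.eventually_exists_iff`, or `Ultrafilter.finite_biUnion_mem_iff`, or consider the
ultrafilter `(E k).map c` on a finite type). By the pigeonhole there are `i < j` with
`t_i = t_j = t`. Let `P = E (j - i - 1)`. As `E j = E i * P`, `{b | {a | c (b * a) = t} ∈ P} ∈ E i`,
so the intersection with `{b | c b = t}` is in `E i` and therefore large. -/
def StPWR : Prop := StLDI → (∀ (n : ℕ) (U : Set ℕ), 1 ≤ n → Rec {x | n * x ∈ U} → Rec U) →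
  (∃ e : Ultrafilter ℕ, ∀ U ∈ e, Large U ∧ Rec U) →
  ∀ (r : ℕ) (c : ℕ → Fin r), ∃ (P : Ultrafilter ℕ) (t : Fin r),
    (∀ V ∈ P, Large V ∧ Rec V) ∧ Large {b | c b = t ∧ {a | c (b * a) = t} ∈ P}

/-- MODULE CMB (about 120 lines). The combinatorial core: interleaved sequences.
PROOF. Build recursively `b_k`, `a_k` and large sets `B_0 ⊇ B_1 ⊇ ...` (`B_0` given), where
`B_{k+1} = {b | b ∈ B_k ∧ b + a_k ∈ B_k}`. Step `k`: `B_k` is large, hence infinite: choose
`b_k ∈ B_k` with `b_k > a_{k-1}` (`b_0 > 0`). Then for every `i ≤ k` and every `F ⊆ {0, ..., i - 1}`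
the number `x = b_i + ∑_{j ∈ F} a_j` is in `B_0` (see below), so `T x ∈ P`; the intersection `V` of
these finitely many `T x` with `{a | a > b_k}` is in `P` (all members of `P` are infinite, so `P`
contains all cofinite sets). `V` is recurrent, so there is `a_k ∈ V` with
`B_{k+1} = {b | b ∈ B_k ∧ b + a_k ∈ B_k}` large.
Fact: if `x ∈ B_i` and `F ⊆ {0, ..., i - 1}` then `x + ∑_{j ∈ F} a_j ∈ B_0`: induction on `i`:
`x ∈ B_{i+1}`; if `i ∉ F` then `x ∈ B_i` and `F ⊆ {0, ..., i-1}`; if `i ∈ F` then `x + a_i ∈ B_i`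
and `F \ {i} ⊆ {0, ..., i - 1}`.
A convenient way to formalise the recursion: use a state `(l, B)` where `l` is the list (or a
finite set) of all numbers `x` found so far (all the sums `b_i + ∑_F a_j`), or simply a state
`(n, X, B)` with `X` a finite subset of `B_0` and `B` large; the step adds to `X` the finite set of
all sums `b_k + ∑_{j ∈ F} a_j`, `F ⊆ {0, ..., k-1}`. Any other organisation is fine. -/
def StCMB : Prop := ∀ (P : Ultrafilter ℕ) (B₀ : Set ℕ) (T : ℕ → Set ℕ),
  (∀ V ∈ P, Rec V ∧ V.Infinite) → Large B₀ → (∀ x ∈ B₀, T x ∈ P) →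
  ∃ a b : ℕ → ℕ, 0 < b 0 ∧ (∀ i, b i < a i ∧ a i < b (i + 1)) ∧
    (∀ (i : ℕ) (F : Finset ℕ), (∀ j ∈ F, j < i) → b i + ∑ j ∈ F, a j ∈ B₀) ∧
    (∀ (i k : ℕ) (F : Finset ℕ), (∀ j ∈ F, j < i) → i ≤ k → a k ∈ T (b i + ∑ j ∈ F, a j))

/-- MODULE GMU (about 50 lines). Products of good means are good.
PROOF. `IsMean.mul`. Large: if `U` is not large, no `{b | a + b ∈ U}` is large (`large_shift`), so
`(m * n) (ind U) = m (a ↦ n (ind {b | a + b ∈ U})) = m 0 = 0` (`mul_def`, `ind_comp`,
`IsMean.const`). Recurrence: let `U` be not recurrent and suppose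
`(m * n) (ind U) = m (a ↦ n (ind {b | a + b ∈ U})) ≠ 0`, so `> 0`. By `IsMean.pos_of_pos` the set
`R = {a | 0 < n (ind {b | a + b ∈ U})}` has `m (ind R) > 0`, so `R` is recurrent (else `m (ind R) =
0`). Let `B` be large. There is `a ∈ R` with `B' = {b | b ∈ B ∧ b + a ∈ B}` large. As
`n (ind {b | a + b ∈ U}) > 0`, `{b | a + b ∈ U}` is recurrent, so there is `v` with `a + v ∈ U` and
`{b | b ∈ B' ∧ b + v ∈ B'}` large; it is contained in `{b | b ∈ B ∧ b + (a + v) ∈ B}`. So `U` is
recurrent, a contradiction. -/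
def StGMU : Prop := ∀ m n : W, Good m → Good n → Good (m * n)

/-- MODULE GDI (about 30 lines). Dilations of good means are good.
PROOF. `isMean_dil`. `dil n m (ind U) = m (ind {x | n x ∈ U})` (`dil_apply`, `ind_comp`). If this
is not `0` then `{x | n x ∈ U}` is large and recurrent, so `U` is large (`StLDI` with `j = 0`,
`Large.mono`) and recurrent (hypothesis). -/
def StGDI : Prop := StLDI → (∀ (n : ℕ) (U : Set ℕ), 1 ≤ n → Rec {x | n * x ∈ U} → Rec U) →
  ∀ (n : ℕ) (m : W), 1 ≤ n → Good m → Good (dil n m)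

/-- MODULE CPT (about 80 lines). The good means form a compact set.
PROOF. Evaluations `m ↦ m f` are continuous on `W` (`continuous_apply`; the topology of `W` is the
product topology of `(ℕ → ℝ) → ℝ`, unfold with `show` if necessary). Each of the conditions
of `IsMean` and `Good` is, for fixed `f, g, c, U`, a closed condition on `m` (equality or
inequality of continuous real functions of `m`), so the set is closed (`isClosed_iInter`,
`isClosed_eq`, `isClosed_le`). For every `f` choose a compact `K f ⊆ ℝ`: `Icc (-C) C` with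
`|f| ≤ C` if `f` is bounded, `{0}` otherwise. By `IsMean.abs_le` and `junk` the set is contained in
`Set.pi univ K`, which is compact (`isCompact_univ_pi`); a closed subset of a compact set is
compact (`IsCompact.of_isClosed_subset`). -/
def StCPT : Prop := IsCompact {m : W | Good m}

/-- MODULE MKF (about 120 lines). Markov-Kakutani for the dilations.
PROOF. For `N` let `K_N = {m ∈ K | ∀ n, 1 ≤ n → n ≤ N → dil n m = m}`. Each `K_N` is closed in `K`
(`m ↦ dil n m` is continuous on `W`: each coordinate is an evaluation or `0`; `W` is T2), so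
compact, and decreasing. By induction `K_N` is nonempty: `K_0 = K`. Let `m0 ∈ K_N`, `n = N + 1`.
Put `v 0 = m0`, `v (i + 1) = dil n (v i)`; all `v i` are in `K`, and in `K_N`: for `k ≤ N`,
`dil k (dil n m) = dil n (dil k m)` on all functions (for bounded `f` both sides are
`m (x ↦ f (n * (k * x)))` up to commutativity; for unbounded `f` both are `0`). The averages
`w M = (f ↦ (∑ i in range (M + 1), v i f) / (M + 1))` are in `K` by hypothesis, and in `K_N` (apply
`dil k` termwise: for `f` bounded `(w M) (x ↦ f (k x)) = (∑ v i (x ↦ f (k x))) / (M + 1) =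
(∑ dil k (v i) f) / (M + 1)`; for `f` unbounded both sides are `0`, as means vanish on unbounded
functions). By compactness of `K_N` the sequence `w` has a limit `w∞ ∈ K_N` along the ultrafilter
`hyperfilter ℕ` (`IsCompact.ultrafilter_le_nhds` applied to `(hyperfilter ℕ).map w`). For
bounded `f`, `|f| ≤ C`: `(w M) (x ↦ f (n x)) - (w M) f = (v (M+1) f - v 0 f) / (M + 1)`
(telescoping), of absolute value `≤ 2 C / (M + 1) → 0`, and both terms converge to
`w∞ (x ↦ f (n x))` and `w∞ f`; so `dil n w∞ f = w∞ f`. For unbounded `f` both sides are `0`. So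
`w∞ ∈ K_{N+1}`. Finally `⋂ K_N` is nonempty
(`IsCompact.nonempty_iInter_of_sequence_nonempty_isCompact_isClosed`). -/
def StMKF : Prop := ∀ K : Set W, K.Nonempty → IsCompact K → (∀ m ∈ K, IsMean m) →
  (∀ (n : ℕ) (m : W), 1 ≤ n → m ∈ K → dil n m ∈ K) →
  (∀ (v : ℕ → W) (N : ℕ), (∀ i, v i ∈ K) →
    (fun f => (∑ i ∈ Finset.range (N + 1), v i f) / (N + 1) : W) ∈ K) →
  ∃ m ∈ K, ∀ n : ℕ, 1 ≤ n → dil n m = m

/-- MODULE ELL (about 100 lines). A good mean, additively idempotent and dilation invariant.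
PROOF. Let `K = {m | Good m}`: nonempty as `um e` is good (`isMean_um`; if `U` is not large or not
recurrent then `U ∉ e`, so `um e (ind U) = 0` by `um_ind_of_notMem`), compact, closed under `dil n`,
`n ≥ 1`, and under averages (easy: all conditions of `Good` pass to averages). By the
fixed point hypothesis `K' = {m | Good m ∧ ∀ n ≥ 1, dil n m = m}` is nonempty. It is closed in the
compact set `K` (`m ↦ dil n m` is continuous), hence compact. It is closed under `*`: for
`m, m' ∈ K'`, `m * m'` is good and for bounded `f`, `dil n (m * m') f = (m * m') (x ↦ f (n x)) =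
m (a ↦ m' (b ↦ f (n a + n b))) = m (a ↦ m' (b ↦ f (n a + b)))` (as `dil n m' = m'` applied to the
bounded function `b ↦ f (n a + b)`) `= m (a ↦ m' (b ↦ f (a + b)))` (as `dil n m = m` applied to the
bounded function `a ↦ m' (b ↦ f (a + b))`); for unbounded `f` both sides are `0`. Right
multiplications `m ↦ m * r` are continuous on `W` (each coordinate is an evaluation). So
`exists_idempotent_in_compact_subsemigroup` gives `m ∈ K'` with `m * m = m`; `DInv m` by
`dil_apply`. -/
def StELL : Prop := (∃ e : Ultrafilter ℕ, ∀ U ∈ e, Large U ∧ Rec U) → StGMU →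
  (∀ (n : ℕ) (m : W), 1 ≤ n → Good m → Good (dil n m)) → StCPT → StMKF →
  ∃ m : W, Good m ∧ m * m = m ∧ DInv m

/-- MODULE COR (about 120 lines). The correlation inequality for two colours.
PROOF. All functions are bounded by constants (use `Bd.comp`, `Bd.mul`, `Bd.add`, `IsMean.bd_int`).
`c` is bounded, `c x * c x = 1`. Write `u x = m (p ↦ c (x + p))`, `κ = m c`.
The hypothesis says `1 + R1 + R2 + R3 ≤ 0` with `R1 = m (x ↦ c x * u x)`,
`R2 = m (x ↦ m (p ↦ c (x + p) * c (x p)))`, `R3 = m (x ↦ c x * m (p ↦ c (x p)))`.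
R3: `m (p ↦ c (x p)) = κ` for `x ≥ 1` (`DInv`), so `R3 = m (x ↦ c x * κ) = κ²`
(`Good.congr_pos`).
R1: idempotency `m * m = m` says `m (y ↦ m (p ↦ g (y + p))) = m g` for every `g` (`mul_def`). With
`g z = c (x + z)`: `m (y ↦ u (x + y)) = u x`. Also `m (x ↦ m (y ↦ u (x + y) * u (x + y))) =
m (x ↦ u x * u x) =: q ≥ 0` (with `g z = u z * u z`), and `m (x ↦ m (y ↦ u x * u (x + y))) =
m (x ↦ u x * u x) = q`. So `m (x ↦ m (y ↦ (u (x + y) - u x) ^ 2)) = q - 2 q + q = 0`. With
`g z = c z * u z`: `R1 = m (x ↦ m (y ↦ c (x + y) * u (x + y)))`, and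
`m (x ↦ m (y ↦ c (x + y) * u x)) = m (x ↦ u x * u x) = q`. The difference is
`m (x ↦ m (y ↦ c (x + y) * (u (x + y) - u x)))`, and for `ε > 0` pointwise
`|c (x + y) * (u (x + y) - u x)| ≤ ε + (u (x + y) - u x) ^ 2 / ε` (since `|v| ≤ ε + v ^ 2 / ε`), so
the difference is `≤ ε` in absolute value; hence it is `0` and `R1 = q ≥ 0`.
Therefore `1 + R2 ≤ - R1 - R3 ≤ 0`, and `1 + R2` is the left side of the conclusion. -/
def StCOR : Prop := ∀ m : W, Good m → m * m = m → DInv m → ∀ c : ℕ → ℝ, (∀ x, c x = 1 ∨ c x = -1) →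
  m (fun x => m (fun p => 1 + c x * c (x + p) + c (x + p) * c (x * p) + c x * c (x * p))) ≤ 0 →
  m (fun x => m (fun p => 1 + c (x + p) * c (x * p))) ≤ 0

/-- MODULE GAM (about 100 lines). First consequence of `c (n + T) = - c (n T)` almost surely.
PROOF. Write `E n T = 1 + c (n + T) * c (n * T) ∈ {0, 2}` and `E1 n = m (E n)`; by hypothesis and
positivity `m E1 = 0`. Pointwise (values `±1`; with `α = c (n + z + T)`, `β = c (n (z + T))`,
`γ = c (n² z T)`, `δ = c ((n + z) T)`: if `α = -β`, `β = -γ`, `α = -δ` then `δ = -γ`; otherwise the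
right side is `≥ 2`)
`1 + c ((n + z) * T) * c (n * n * z * T) ≤
  (1 + c (n + z + T) * c (n * (z + T))) + (1 + c (n z + n T) * c (n z * (n T)))
  + (1 + c (n + z + T) * c ((n + z) * T))`
(note `n (z + T) = n z + n T` and `n z * (n T) = n * n * z * T`), that is
`Γ n z T ≤ E n (z + T) + E (n z) (n T) + E (n + z) T`. Integrate `m_n m_z m_T`:
(i) `m (z ↦ m (T ↦ E n (z + T))) = m (E n) = E1 n` by `m * m = m` (`mul_def`), so the first term
gives `m E1 = 0`; (ii) for `n ≥ 1`: `m (T ↦ E (n z) (n T)) = E1 (n z)` (`DInv`), and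
`m (z ↦ E1 (n z)) = m E1 = 0` (`DInv`), for all `n ≥ 1`, so the second term is `0`
(`Good.congr_pos` or `Good.mono_pos`); (iii) `m (n ↦ m (z ↦ E1 (n + z))) = m E1 = 0` by
`m * m = m`. -/
def StGAM : Prop := ∀ m : W, Good m → m * m = m → DInv m → ∀ c : ℕ → ℝ, (∀ x, c x = 1 ∨ c x = -1) →
  m (fun x => m (fun p => 1 + c (x + p) * c (x * p))) ≤ 0 →
  m (fun n => m (fun z => m (fun T => 1 + c ((n + z) * T) * c (n * n * z * T)))) ≤ 0

/-- MODULE KAP (about 100 lines). Almost sure invariance of `c` under multiplication by squares.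
PROOF. Write `Γ n z T = 1 + c ((n + z) T) * c (n n z T)`. Pointwise, for `k ≥ 1`, with
`α = c (k (n + z) T)`: `Γ (k n) (k z) T = 1 + α * c (k³ n² z T)`, `Γ n z (k T) = 1 + α * c (k n² z T)`,
so (values `±1`) `1 - c (k³ n² z T) * c (k n² z T) ≤ Γ (k n) (k z) T + Γ n z (k T)`.
Integrate: `m_n m_z m_T Γ (k n) (k z) T = m_n m_z m_T Γ n z T` (twice `DInv`: first in `z` for fixed
`n`, applied to `z ↦ m (Γ (k n) z)`, then in `n`), `m_T Γ n z (k T) = m_T Γ n z T` (`DInv`). So
`m_n m_z m_T (1 - c (k³ n² z T) c (k n² z T)) ≤ 0`. For `n, z ≥ 1` the inner integral is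
`m (T ↦ g (k n² z * T))` with `g T = 1 - c (k k T) c T`, so it is `m g` by `DInv` and
the whole iterated integral is `m g` (`Good.congr_pos` twice, `IsMean.const`). -/
def StKAP : Prop := ∀ m : W, Good m → DInv m → ∀ c : ℕ → ℝ, (∀ x, c x = 1 ∨ c x = -1) →
  m (fun n => m (fun z => m (fun T => 1 + c ((n + z) * T) * c (n * n * z * T)))) ≤ 0 →
  ∀ k : ℕ, 1 ≤ k → m (fun T => 1 - c (k * k * T) * c T) ≤ 0

/-- MODULE DEL (about 70 lines). Pointwise (values `±1`)
`1 + c ((n + z) T) * c (z T) ≤ (1 + c ((n + z) T) * c (n n z T)) + (1 - c (n n z T) * c (z T))`.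
Integrate `m_n m_z m_T`: the first term gives `≤ 0` by hypothesis; for `n, z ≥ 1` the inner integral
of the second is `m (T ↦ g (z * T))` with `g T = 1 - c (n n T) c T` (`n n z T = n n (z T)`), so it
is `m g ≤ 0` by `DInv` and the second hypothesis (`Good.mono_pos`). -/
def StDEL : Prop := ∀ m : W, Good m → DInv m → ∀ c : ℕ → ℝ, (∀ x, c x = 1 ∨ c x = -1) →
  m (fun n => m (fun z => m (fun T => 1 + c ((n + z) * T) * c (n * n * z * T)))) ≤ 0 →
  (∀ k : ℕ, 1 ≤ k → m (fun T => 1 - c (k * k * T) * c T) ≤ 0) →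
  m (fun n => m (fun z => m (fun T => 1 + c ((n + z) * T) * c (z * T)))) ≤ 0

/-- MODULE CON (about 80 lines). The final contradiction.
PROOF. Write `Δ n z T = 1 + c ((n + z) T) * c (z T) ∈ {0, 2}`, `Δ1 n z = m (Δ n z)` and
`Δ2 n = m (Δ1 n)`, all in `[0, 2]`; `m Δ2 ≤ 0` by hypothesis. Among the three signs
`c ((n + z1 + z2) T)`, `c ((z1 + z2) T)`, `c (z2 T)` two are equal, so
`2 ≤ Δ n (z1 + z2) T + Δ (n + z1) z2 T + Δ z1 z2 T`. Integrate `m_n m_z1 m_z2 m_T`: the left side
is `2`. First term: `m (z1 ↦ m (z2 ↦ Δ1 n (z1 + z2))) = m (Δ1 n) = Δ2 n` (`m * m = m`), so it gives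
`m Δ2 ≤ 0`. Second: `m (n ↦ m (z1 ↦ Δ2 (n + z1))) = m Δ2 ≤ 0` (`m * m = m`). Third: it does not
depend on `n`, and is `m (z1 ↦ Δ2 z1) = m Δ2 ≤ 0`. So `2 ≤ 0`. -/
def StCON : Prop := ∀ m : W, IsMean m → m * m = m → ∀ c : ℕ → ℝ, (∀ x, c x = 1 ∨ c x = -1) →
  m (fun n => m (fun z => m (fun T => 1 + c ((n + z) * T) * c (z * T)))) ≤ 0 → False

/-- MODULE ITS (about 150 lines). The intersectivity lemma for finitely additive means.
PROOF. One step (S): if `D : ℕ → Set ℕ`, `J ⊆ ℕ` is infinite, `β > 0` and `m (ind (D n)) ≥ β` for all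
`n ∈ J`, then there are `n0 ∈ J`, `β' > 0` and an infinite `J' ⊆ J` with
`m (ind (D n0 ∩ D n)) ≥ β'` for all `n ∈ J'` (one may also ask `n > n0` on `J'`). Otherwise for all
`n0 ∈ J`, `β' > 0` the set `{n ∈ J | m (ind (D n0 ∩ D n)) ≥ β'}` is finite. Take `k` with `k β ≥ 2`
and `β' = 1 / (k * k)`, and choose one after the other `n_1 < ... < n_k` in `J` with
`m (ind (D n_i ∩ D n_j)) < β'` for `i < j`. As in module RCU, pointwise
`∑_{i} ind (D n_i) x ≤ 1 + ∑_{i<j} ind (D n_i ∩ D n_j) x`, so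
`2 ≤ k β ≤ 1 + (k * k / 2) β' < 2`, a contradiction.
Iterate (S): start with `D`, `J_0 = univ`; apply (S) to the sets `V ∩ D n` where `V` is the finite
intersection found so far (state: `V`, infinite `J`, `β > 0` with `m (ind (V ∩ D n)) ≥ β` for
`n ∈ J`; new state `V ∩ D n0`, `J' ⊆ J ∩ (n0, ∞)`, `β'`). This gives `n_1 < n_2 < ...` with
`m (ind (D n_1 ∩ ... ∩ D n_k)) > 0` for all `k`.
The sets containing some `D n_1 ∩ ... ∩ D n_k ∩ Z` with `m (ind Zᶜ) = 0` form a proper filter
(each such set is nonempty: otherwise `D n_1 ∩ ... ∩ D n_k ⊆ Zᶜ` would be null); let `P` be an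
ultrafilter finer than it (`Ultrafilter.of`, or `Ultrafilter.exists_ultrafilter_of_finite_inter_
nonempty`). All `D n_i ∈ P`; if `V ∈ P` had `m (ind V) = 0` then `Vᶜ ∈ P`, impossible. -/
def StITS : Prop := ∀ m : W, IsMean m → ∀ (D : ℕ → Set ℕ) (β : ℝ), 0 < β →
  (∀ n, β ≤ m (ind (D n))) →
  ∃ P : Ultrafilter ℕ, (∀ V ∈ P, 0 < m (ind V)) ∧ {n | D n ∈ P}.Infinite

/-- MODULE EXT (about 120 lines). From an average to an ultrafilter.
PROOF. Let `g x = m (ind (G x)) ∈ [0, 1]`, `η = m g > 0`, `A = {x | η / 2 ≤ g x}`. As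
`g ≤ ind A + η / 2`, `m (ind A) ≥ η / 2 > 0`, so `A` is large (`Good.large`). By `StWOU` there is
`α > 0` and for every `L` an `s L` with `∑ i in range L, ind A (s L + i) ≥ α L`. For `L ≥ 1` let
`w = ∑ i in range L, ind A (s L + i)` (`> 0`) and
`h_L p = ∑ i in range L, ind A (s L + i) * ind (G (s L + i)) p`, so `0 ≤ h_L ≤ w` and
`m h_L = ∑ ind A (s L + i) * g (s L + i) ≥ (η / 2) w`. Let
`D L = {p | (η / 4) * w ≤ h_L p}`; `h_L ≤ w * ind (D L) + (η / 4) w`, so `m (ind (D L)) ≥ η / 4`.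
Apply `StITS` to `L ↦ D (L + 1)` with `β = η / 4`: an ultrafilter `P` with all members of positive
mean and `D L ∈ P` for infinitely many `L`. Let `X = {x | G x ∈ P}`. For `L` with `D L ∈ P`: the
set of `p` such that, for all `i < L`, (`p ∈ G (s L + i)` iff `G (s L + i) ∈ P`) is in `P` (finite
intersection of members of `P`), so it meets `D L`: there is `p` with
`(η / 4) w ≤ h_L p = ∑ ind A (s L + i) * ind X (s L + i) ≤ ∑ i in range L, ind X (s L + i)`, and
`(η / 4) w ≥ (η / 4) α L`. So `X` is large by `StWIN`. -/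
def StEXT : Prop := StWOU → StWIN → StITS → ∀ m : W, Good m → ∀ G : ℕ → Set ℕ,
  0 < m (fun x => m (ind (G x))) →
  ∃ P : Ultrafilter ℕ, (∀ V ∈ P, 0 < m (ind V)) ∧ Large {x | G x ∈ P}

end Pool.Agent.Helper73.RS
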